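import Pool.Agent.Helper264.StrFour

set_option autoImplicit false
open MeasureTheory MeasureTheory.Measure Set Real Filter
open scoped ENNReal NNReal Topology

namespace Pool.Agent.Helper264.Str

lemma ee_even (n : ℤ) (hn : Even n) : ee n (-π) = 1 := by
  obtain ⟨k, rfl⟩ := hn
  unfold ee
  rw [Complex.exp_eq_one_iff]
  exact ⟨-k, by push_cast; ring⟩

lemma ee_odd (n : ℤ) (hn : Odd n) : ee n (-π) = -1 := by
  obtain ⟨k, rfl⟩ := hn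
  have h1 : ee (2 * k + 1) (-π) = ee (2 * k) (-π) * ee 1 (-π) := by
    unfold ee; rw [← Complex.exp_add]; congr 1; push_cast; ring
  rw [h1, ee_even _ (even_two_mul k), one_mul]
  unfold ee
  rw [show ((1 : ℤ) : ℂ) * Complex.I * ((-π : ℝ) : ℂ) = -(π * Complex.I) by push_cast; ring,
    Complex.exp_neg, Complex.exp_pi_mul_I]
  norm_num

lemma half_shift {G : ℝ → ℝ} (_hG : Continuous G) (hper : ∀ θ, G (θ + 2 * π) = G θ) (n : ℤ) :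
    ∫ θ in (0 : ℝ)..(2 * π), ee n θ * ((G (θ + π) : ℝ) : ℂ)
      = ee n (-π) * ∫ θ in (0 : ℝ)..(2 * π), ee n θ * ((G θ : ℝ) : ℂ) := by
  have h1 := cper_shift (f := fun θ => ee n (-π) * (ee n θ * ((G θ : ℝ) : ℂ))) (by
    intro θ
    rw [ee_per, hper]) π
  refine Eq.trans ?_ (h1.trans (intervalIntegral.integral_const_mul _ _))
  congr 1
  funext θ
  have h2 : ee n (-π) * ee n (θ + π) = ee n θ := by
    rw [← ee_add]; congr 1; ring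
  calc ee n θ * ((G (θ + π) : ℝ) : ℂ) = (ee n (-π) * ee n (θ + π)) * ((G (θ + π) : ℝ) : ℂ) := by rw [h2]
    _ = _ := by ring

lemma cint {G : ℝ → ℝ} (hG : Continuous G) (n : ℤ) :
    IntervalIntegrable (fun θ => ee n θ * ((G θ : ℝ) : ℂ)) volume 0 (2 * π) :=
  ((ee_cont n).mul (Complex.continuous_ofReal.comp hG)).intervalIntegrable _ _

lemma sum_coef {G : ℝ → ℝ} (hG : Continuous G) (hper : ∀ θ, G (θ + 2 * π) = G θ) (n : ℤ) :
    ∫ θ in (0 : ℝ)..(2 * π), ee n θ * ((G θ + G (θ + π) : ℝ) : ℂ)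
      = (1 + ee n (-π)) * ∫ θ in (0 : ℝ)..(2 * π), ee n θ * ((G θ : ℝ) : ℂ) := by
  have h1 : ∀ θ, ee n θ * ((G θ + G (θ + π) : ℝ) : ℂ)
      = ee n θ * ((G θ : ℝ) : ℂ) + ee n θ * ((G (θ + π) : ℝ) : ℂ) := by
    intro θ; push_cast; ring
  simp only [h1]
  rw [intervalIntegral.integral_add (cint hG n) (cint (G := fun θ => G (θ + π)) (by fun_prop) n),
    half_shift hG hper]
  ring

lemma diff_coef {G : ℝ → ℝ} (hG : Continuous G) (hper : ∀ θ, G (θ + 2 * π) = G θ) (n : ℤ) :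
    ∫ θ in (0 : ℝ)..(2 * π), ee n θ * ((G θ - G (θ + π) : ℝ) : ℂ)
      = (1 - ee n (-π)) * ∫ θ in (0 : ℝ)..(2 * π), ee n θ * ((G θ : ℝ) : ℂ) := by
  have h1 : ∀ θ, ee n θ * ((G θ - G (θ + π) : ℝ) : ℂ)
      = ee n θ * ((G θ : ℝ) : ℂ) - ee n θ * ((G (θ + π) : ℝ) : ℂ) := by
    intro θ; push_cast; ring
  simp only [h1]
  rw [intervalIntegral.integral_sub (cint hG n) (cint (G := fun θ => G (θ + π)) (by fun_prop) n),
    half_shift hG hper]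
  ring

lemma real_finite {G : ℝ → ℝ} (hG : Continuous G) (hper : ∀ θ, G (θ + 2 * π) = G θ)
    (S : Finset ℤ) (h0 : ∀ n, n ∉ S → ∫ θ in (0 : ℝ)..(2 * π), ee n θ * ((G θ : ℝ) : ℂ) = 0) :
    ∃ a b : ℤ → ℝ, ∀ θ, G θ = ∑ n ∈ S, (a n * Real.cos (n * θ) + b n * Real.sin (n * θ)) := by
  obtain ⟨c, hc⟩ := fourier_finite (f := fun θ => ((G θ : ℝ) : ℂ))
    (Complex.continuous_ofReal.comp hG) (fun θ => by rw [hper]) S h0
  refine ⟨fun n => (c n).re, fun n => (c n).im, fun θ => ?_⟩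
  have h1 := congrArg Complex.re (hc θ)
  simp only [Complex.ofReal_re, Complex.re_sum] at h1
  rw [h1]
  apply Finset.sum_congr rfl
  intro n _
  have h2 : ee (-n) θ = ((Real.cos (n * θ) : ℝ) : ℂ) - ((Real.sin (n * θ) : ℝ) : ℂ) * Complex.I := by
    unfold ee
    rw [show ((-n : ℤ) : ℂ) * Complex.I * (θ : ℂ) = ((-(n * θ) : ℝ) : ℂ) * Complex.I by
      push_cast; ring, Complex.exp_mul_I, ← Complex.ofReal_cos, ← Complex.ofReal_sin,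
      Real.cos_neg, Real.sin_neg]
    push_cast; ring
  rw [h2]
  simp only [Complex.mul_re, Complex.sub_re, Complex.sub_im, Complex.mul_im, Complex.ofReal_re,
    Complex.ofReal_im, Complex.I_re, Complex.I_im]
  ring

lemma real_zero {G : ℝ → ℝ} (hG : Continuous G) (hper : ∀ θ, G (θ + 2 * π) = G θ)
    (h0 : ∀ n : ℤ, ∫ θ in (0 : ℝ)..(2 * π), ee n θ * ((G θ : ℝ) : ℂ) = 0) :
    ∀ θ, G θ = 0 := by
  obtain ⟨a, b, hab⟩ := real_finite hG hper ∅ (fun n _ => h0 n)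
  intro θ; rw [hab θ]; simp

lemma real_const {G : ℝ → ℝ} (hG : Continuous G) (hper : ∀ θ, G (θ + 2 * π) = G θ)
    (h0 : ∀ n : ℤ, n ≠ 0 → ∫ θ in (0 : ℝ)..(2 * π), ee n θ * ((G θ : ℝ) : ℂ) = 0) :
    ∃ c, ∀ θ, G θ = c := by
  obtain ⟨a, b, hab⟩ := real_finite hG hper {0} (fun n hn => h0 n (by simpa using hn))
  refine ⟨a 0, fun θ => ?_⟩
  rw [hab θ]; simp

lemma real_one {G : ℝ → ℝ} (hG : Continuous G) (hper : ∀ θ, G (θ + 2 * π) = G θ)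
    (h0 : ∀ n : ℤ, n ≠ 1 → n ≠ -1 → ∫ θ in (0 : ℝ)..(2 * π), ee n θ * ((G θ : ℝ) : ℂ) = 0) :
    ∃ a b, ∀ θ, G θ = a * Real.cos θ + b * Real.sin θ := by
  obtain ⟨a, b, hab⟩ := real_finite hG hper {1, -1} (fun n hn => by
    simp only [Finset.mem_insert, Finset.mem_singleton, not_or] at hn
    exact h0 n hn.1 hn.2)
  refine ⟨a 1 + a (-1), b 1 - b (-1), fun θ => ?_⟩
  rw [hab θ, Finset.sum_pair (by norm_num)]
  push_cast
  rw [show (-1 : ℝ) * θ = -θ by ring, one_mul, Real.cos_neg, Real.sin_neg]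
  ring

lemma real_two {G : ℝ → ℝ} (hG : Continuous G) (hper : ∀ θ, G (θ + 2 * π) = G θ)
    (h0 : ∀ n : ℤ, n ≠ 0 → n ≠ 2 → n ≠ -2 →
      ∫ θ in (0 : ℝ)..(2 * π), ee n θ * ((G θ : ℝ) : ℂ) = 0) :
    ∃ A B C, ∀ θ, G θ = A + B * Real.cos (2 * θ) + C * Real.sin (2 * θ) := by
  obtain ⟨a, b, hab⟩ := real_finite hG hper {0, 2, -2} (fun n hn => by
    simp only [Finset.mem_insert, Finset.mem_singleton, not_or] at hn
    exact h0 n hn.1 hn.2.1 hn.2.2)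
  refine ⟨a 0, a 2 + a (-2), b 2 - b (-2), fun θ => ?_⟩
  rw [hab θ, Finset.sum_insert (by norm_num), Finset.sum_pair (by norm_num)]
  push_cast
  rw [show (-2 : ℝ) * θ = -(2 * θ) by ring, zero_mul, Real.cos_neg, Real.sin_neg]
  simp only [Real.cos_zero, Real.sin_zero]
  ring

lemma mom_diff {u₁ u₂ : ℝ → ℝ} (h₁ : Continuous u₁) (h₂ : Continuous u₂) (n : ℤ) (k : ℕ)
    (h : mom u₁ n k = mom u₂ n k) :
    ∫ θ in (0 : ℝ)..(2 * π), ee n θ * ((u₂ θ ^ k - u₁ θ ^ k : ℝ) : ℂ) = 0 := by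
  have h1 : ∀ θ, ee n θ * ((u₂ θ ^ k - u₁ θ ^ k : ℝ) : ℂ)
      = ee n θ * ((u₂ θ ^ k : ℝ) : ℂ) - ee n θ * ((u₁ θ ^ k : ℝ) : ℂ) := by
    intro θ; push_cast; ring
  simp only [h1]
  rw [intervalIntegral.integral_sub (cint (G := fun θ => u₂ θ ^ k) (h₂.pow k) n)
    (cint (G := fun θ => u₁ θ ^ k) (h₁.pow k) n)]
  unfold mom at h
  rw [h, sub_self]

/-- the algebraic conclusion -/
theorem alg {u₁ u₂ : ℝ → ℝ} (S₁ : SF u₁) (S₂ : SF u₂) (hlt : ∀ θ, u₁ θ < u₂ θ)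
    (m1 : ∀ n : ℤ, Odd n → mom u₁ n 1 = mom u₂ n 1)
    (m2 : ∀ n : ℤ, Even n → n ≠ 0 → mom u₁ n 2 = mom u₂ n 2)
    (m3 : ∀ n : ℤ, Odd n → n ≠ 1 → n ≠ -1 → mom u₁ n 3 = mom u₂ n 3)
    (m4 : ∀ n : ℤ, Even n → n ≠ 0 → n ≠ 2 → n ≠ -2 → mom u₁ n 4 = mom u₂ n 4) :
    ∃ a b A B C : ℝ, ∀ θ, 0 < u₁ θ - (a * Real.cos θ + b * Real.sin θ) ∧
      (u₁ θ - (a * Real.cos θ + b * Real.sin θ)) ^ 2
        = A + B * Real.cos (2 * θ) + C * Real.sin (2 * θ) := by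
  have cu : ∀ k, Continuous (fun θ => u₂ θ ^ k - u₁ θ ^ k) := fun k =>
    (S₂.cont.pow k).sub (S₁.cont.pow k)
  have pu : ∀ k θ, u₂ (θ + 2 * π) ^ k - u₁ (θ + 2 * π) ^ k = u₂ θ ^ k - u₁ θ ^ k := by
    intro k θ; rw [S₁.per, S₂.per]
  have cs : ∀ k, Continuous (fun θ => u₂ (θ + π) ^ k - u₁ (θ + π) ^ k) := fun k =>
    (cu k).comp (continuous_id.add continuous_const)
  have ps : ∀ k θ, u₂ (θ + 2 * π + π) ^ k - u₁ (θ + 2 * π + π) ^ k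
      = u₂ (θ + π) ^ k - u₁ (θ + π) ^ k := by
    intro k θ; rw [show θ + 2 * π + π = (θ + π) + 2 * π by ring, S₁.per, S₂.per]
  -- k = 1
  have k1 : ∀ θ, (u₂ θ ^ 1 - u₁ θ ^ 1) - (u₂ (θ + π) ^ 1 - u₁ (θ + π) ^ 1) = 0 := by
    apply real_zero (G := fun θ => (u₂ θ ^ 1 - u₁ θ ^ 1) - (u₂ (θ + π) ^ 1 - u₁ (θ + π) ^ 1))
      ((cu 1).sub (cs 1)) (fun θ => by simp only [pu, ps])
    intro n
    refine (diff_coef (G := fun θ => u₂ θ ^ 1 - u₁ θ ^ 1) (cu 1) (pu 1) n).trans ?_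
    rcases Int.even_or_odd n with hn | hn
    · rw [ee_even n hn]; simp
    · rw [mom_diff S₁.cont S₂.cont n 1 (m1 n hn), mul_zero]
  -- k = 2
  obtain ⟨c2, k2⟩ : ∃ c, ∀ θ, (u₂ θ ^ 2 - u₁ θ ^ 2) + (u₂ (θ + π) ^ 2 - u₁ (θ + π) ^ 2) = c := by
    apply real_const (G := fun θ => (u₂ θ ^ 2 - u₁ θ ^ 2) + (u₂ (θ + π) ^ 2 - u₁ (θ + π) ^ 2))
      ((cu 2).add (cs 2)) (fun θ => by simp only [pu, ps])
    intro n hn0
    refine (sum_coef (G := fun θ => u₂ θ ^ 2 - u₁ θ ^ 2) (cu 2) (pu 2) n).trans ?_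
    rcases Int.even_or_odd n with hn | hn
    · rw [mom_diff S₁.cont S₂.cont n 2 (m2 n hn hn0), mul_zero]
    · rw [ee_odd n hn]; simp
  -- k = 3
  obtain ⟨a3, b3, k3⟩ : ∃ a b, ∀ θ, (u₂ θ ^ 3 - u₁ θ ^ 3) - (u₂ (θ + π) ^ 3 - u₁ (θ + π) ^ 3)
      = a * Real.cos θ + b * Real.sin θ := by
    apply real_one (G := fun θ => (u₂ θ ^ 3 - u₁ θ ^ 3) - (u₂ (θ + π) ^ 3 - u₁ (θ + π) ^ 3))
      ((cu 3).sub (cs 3)) (fun θ => by simp only [pu, ps])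
    intro n hn1 hn2
    refine (diff_coef (G := fun θ => u₂ θ ^ 3 - u₁ θ ^ 3) (cu 3) (pu 3) n).trans ?_
    rcases Int.even_or_odd n with hn | hn
    · rw [ee_even n hn]; simp
    · rw [mom_diff S₁.cont S₂.cont n 3 (m3 n hn hn1 hn2), mul_zero]
  -- k = 4
  obtain ⟨A4, B4, C4, k4⟩ : ∃ A B C, ∀ θ,
      (u₂ θ ^ 4 - u₁ θ ^ 4) + (u₂ (θ + π) ^ 4 - u₁ (θ + π) ^ 4)
      = A + B * Real.cos (2 * θ) + C * Real.sin (2 * θ) := by
    apply real_two (G := fun θ => (u₂ θ ^ 4 - u₁ θ ^ 4) + (u₂ (θ + π) ^ 4 - u₁ (θ + π) ^ 4))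
      ((cu 4).add (cs 4)) (fun θ => by simp only [pu, ps])
    intro n hn0 hn1 hn2
    refine (sum_coef (G := fun θ => u₂ θ ^ 4 - u₁ θ ^ 4) (cu 4) (pu 4) n).trans ?_
    rcases Int.even_or_odd n with hn | hn
    · rw [mom_diff S₁.cont S₂.cont n 4 (m4 n hn hn0 hn1 hn2), mul_zero]
    · rw [ee_odd n hn]; simp
  have hc2 : 0 < c2 := by
    rw [← k2 0]
    have h1 := hlt 0
    have h2 := hlt (0 + π)
    have h3 := S₁.pos 0
    have h4 := S₁.pos (0 + π)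
    nlinarith
  -- odd part
  have hodd : ∀ θ, (u₁ θ - u₁ (θ + π)) / 2
      = a3 / (3 * c2) * Real.cos θ + b3 / (3 * c2) * Real.sin θ := by
    intro θ
    have e1 := k1 θ
    have e2 := k2 θ
    have e3 := k3 θ
    simp only [pow_one] at e1
    set p := u₁ θ
    set q := u₁ (θ + π)
    set p' := u₂ θ
    set q' := u₂ (θ + π)
    have h3 : 3 * c2 * ((p - q) / 2) = a3 * Real.cos θ + b3 * Real.sin θ := by
      rw [← e3, ← e2]
      have hq' : q' = p' - p + q := by linarith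
      rw [hq']; ring
    field_simp
    linarith
  refine ⟨a3 / (3 * c2), b3 / (3 * c2),
    A4 / (2 * c2) - c2 / 4 - 3 / 2 * ((a3 / (3 * c2)) ^ 2 + (b3 / (3 * c2)) ^ 2),
    B4 / (2 * c2) - 3 / 2 * ((a3 / (3 * c2)) ^ 2 - (b3 / (3 * c2)) ^ 2),
    C4 / (2 * c2) - 3 * ((a3 / (3 * c2)) * (b3 / (3 * c2))), fun θ => ?_⟩
  have e1 := k1 θ
  have e2 := k2 θ
  have e4 := k4 θ
  have eo := hodd θ
  simp only [pow_one] at e1
  rw [← eo]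
  have hp := S₁.pos θ
  have hq := S₁.pos (θ + π)
  refine ⟨by linarith, ?_⟩
  set α := a3 / (3 * c2)
  set β := b3 / (3 * c2)
  set p := u₁ θ
  set q := u₁ (θ + π)
  set p' := u₂ θ
  set q' := u₂ (θ + π)
  have hq' : q' = p' - p + q := by linarith
  have hmain : 2 * c2 * ((p + q) / 2) ^ 2 + c2 ^ 2 / 2 + 6 * c2 * ((p - q) / 2) ^ 2
      = A4 + B4 * Real.cos (2 * θ) + C4 * Real.sin (2 * θ) := by
    rw [← e4, ← e2, hq']
    ring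
  have ho2 : ((p - q) / 2) ^ 2 = (α ^ 2 + β ^ 2) / 2 + (α ^ 2 - β ^ 2) / 2 * Real.cos (2 * θ)
      + α * β * Real.sin (2 * θ) := by
    rw [eo, Real.cos_two_mul, Real.sin_two_mul]
    have := Real.sin_sq_add_cos_sq θ
    linear_combination (β ^ 2) * this
  have hpq : p - (p - q) / 2 = (p + q) / 2 := by ring
  rw [hpq]
  rw [ho2] at hmain
  have hc2' : c2 ≠ 0 := hc2.ne'
  have : ((p + q) / 2) ^ 2 = (A4 + B4 * Real.cos (2 * θ) + C4 * Real.sin (2 * θ) - c2 ^ 2 / 2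
      - 6 * c2 * ((α ^ 2 + β ^ 2) / 2 + (α ^ 2 - β ^ 2) / 2 * Real.cos (2 * θ)
      + α * β * Real.sin (2 * θ))) / (2 * c2) := by
    field_simp
    linarith
  rw [this]
  field_simp
  ring

end Pool.Agent.Helper264.Str
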