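import Mathlib

set_option autoImplicit false
open MeasureTheory MeasureTheory.Measure Set Real
open scoped ENNReal NNReal Topology

namespace Pool.Agent.Helper264.Str

/-- the plane -/
abbrev V := EuclideanSpace ℝ (Fin 2)

/-- the unit vector at angle `θ` -/
noncomputable def nn (θ : ℝ) : V := !₂[Real.cos θ, Real.sin θ]

/-- the linear functional in direction `θ` -/
noncomputable def L (x : V) (θ : ℝ) : ℝ := x 0 * Real.cos θ + x 1 * Real.sin θ

@[simp] lemma nn_zero (θ : ℝ) : (nn θ) 0 = Real.cos θ := by simp [nn]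
@[simp] lemma nn_one (θ : ℝ) : (nn θ) 1 = Real.sin θ := by simp [nn]

lemma L_add (x y : V) (θ : ℝ) : L (x + y) θ = L x θ + L y θ := by
  simp [L]; ring
lemma L_sub (x y : V) (θ : ℝ) : L (x - y) θ = L x θ - L y θ := by
  simp [L]; ring
lemma L_smul (c : ℝ) (x : V) (θ : ℝ) : L (c • x) θ = c * L x θ := by
  simp [L]; ring
lemma L_neg (x : V) (θ : ℝ) : L (-x) θ = - L x θ := by
  simp [L]; ring
lemma L_nn (α θ : ℝ) : L (nn α) θ = Real.cos (θ - α) := by
  simp [L, Real.cos_sub]; ring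
@[simp] lemma L_nn_self (θ : ℝ) : L (nn θ) θ = 1 := by simp [L_nn]
@[simp] lemma L_zero (θ : ℝ) : L 0 θ = 0 := by simp [L]

lemma norm_sq (x : V) : ‖x‖ ^ 2 = x 0 ^ 2 + x 1 ^ 2 := by
  rw [EuclideanSpace.norm_sq_eq]; simp

lemma inner_V (x y : V) : inner ℝ x y = x 0 * y 0 + x 1 * y 1 := by
  simp [PiLp.inner_apply, Fin.sum_univ_two]; ring

lemma L_eq_inner (x : V) (θ : ℝ) : L x θ = inner ℝ x (nn θ) := by
  simp [inner_V, L]

@[simp] lemma norm_nn (θ : ℝ) : ‖nn θ‖ = 1 := by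
  have h := norm_sq (nn θ)
  simp only [nn_zero, nn_one, Real.cos_sq_add_sin_sq] at h
  have h0 := norm_nonneg (nn θ)
  nlinarith [sq_nonneg (‖nn θ‖ - 1), sq_nonneg (‖nn θ‖ + 1)]

lemma L_le_norm (x : V) (θ : ℝ) : L x θ ≤ ‖x‖ := by
  rw [L_eq_inner]
  calc inner ℝ x (nn θ) ≤ ‖x‖ * ‖nn θ‖ := real_inner_le_norm _ _
    _ = ‖x‖ := by simp

lemma abs_L_le_norm (x : V) (θ : ℝ) : |L x θ| ≤ ‖x‖ := by
  rw [L_eq_inner]
  calc |inner ℝ x (nn θ)| ≤ ‖x‖ * ‖nn θ‖ := abs_real_inner_le_norm _ _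
    _ = ‖x‖ := by simp

/-- every vector is `r • nn ψ` -/
lemma exists_polar (x : V) : ∃ ψ : ℝ, x = ‖x‖ • nn ψ := by
  refine ⟨Complex.arg ⟨x 0, x 1⟩, ?_⟩
  set z : ℂ := ⟨x 0, x 1⟩ with hz
  have hn : ‖z‖ = ‖x‖ := by
    have h1 : ‖z‖ ^ 2 = ‖x‖ ^ 2 := by
      rw [norm_sq, Complex.sq_norm, Complex.normSq_apply]; simp [hz]; ring
    exact (sq_eq_sq₀ (norm_nonneg _) (norm_nonneg _)).mp h1
  have h0 := Complex.norm_mul_cos_arg z
  have h1 := Complex.norm_mul_sin_arg z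
  rw [hn] at h0 h1
  ext i
  fin_cases i
  · simp [hz] at h0 ⊢; linarith
  · simp [hz] at h1 ⊢; linarith

lemma continuous_L (x : V) : Continuous (fun θ => L x θ) := by
  unfold L; fun_prop

lemma continuous_L_left (θ : ℝ) : Continuous (fun x : V => L x θ) := by
  unfold L; fun_prop

lemma L_add_two_pi (x : V) (θ : ℝ) : L x (θ + 2 * π) = L x θ := by
  simp [L]

lemma L_add_pi (x : V) (θ : ℝ) : L x (θ + π) = - L x θ := by
  simp [L]; ring

lemma hasDerivAt_L (x : V) (θ : ℝ) : HasDerivAt (fun θ => L x θ) (L x (θ + π / 2)) θ := by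
  have h1 := ((Real.hasDerivAt_cos θ).const_mul (x 0)).add ((Real.hasDerivAt_sin θ).const_mul (x 1))
  have h2 : L x (θ + π / 2) = x 0 * -Real.sin θ + x 1 * Real.cos θ := by
    unfold L
    rw [Real.cos_add_pi_div_two, Real.sin_add_pi_div_two]
  rw [h2]
  exact h1

/-- Lipschitz in the angle -/
lemma L_sub_le (x : V) (θ φ : ℝ) : |L x θ - L x φ| ≤ ‖x‖ * |θ - φ| := by
  have := Convex.norm_image_sub_le_of_norm_hasDerivWithin_le (f := fun θ => L x θ)
    (f' := fun θ => L x (θ + π / 2)) (C := ‖x‖) (s := univ) (x := φ) (y := θ)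
    (fun t _ => (hasDerivAt_L x t).hasDerivWithinAt)
    (fun t _ => by rw [Real.norm_eq_abs]; exact abs_L_le_norm _ _)
    convex_univ (mem_univ _) (mem_univ _)
  simpa [Real.norm_eq_abs] using this

/-- `h` is the support function of `C` -/
def IsSupp (C : Set V) (h : ℝ → ℝ) : Prop :=
  ∀ θ, (∃ x ∈ C, L x θ = h θ) ∧ ∀ x ∈ C, L x θ ≤ h θ

lemma exists_isSupp {C : Set V} (hC : IsCompact C) (hne : C.Nonempty) : ∃ h, IsSupp C h := by
  have : ∀ θ, ∃ r, (∃ x ∈ C, L x θ = r) ∧ ∀ x ∈ C, L x θ ≤ r := by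
    intro θ
    obtain ⟨x, hx, hmax⟩ := hC.exists_isMaxOn hne (continuous_L_left θ).continuousOn
    exact ⟨L x θ, ⟨x, hx, rfl⟩, fun y hy => hmax hy⟩
  choose h hh using this
  exact ⟨h, hh⟩

/-- every continuous linear functional on the plane is `ρ L(·, θ)` -/
lemma dual_eq (f : StrongDual ℝ V) : ∃ ρ θ : ℝ, 0 ≤ ρ ∧ ∀ x, f x = ρ * L x θ := by
  set w : V := (InnerProductSpace.toDual ℝ V).symm f with hw
  obtain ⟨ψ, hψ⟩ := exists_polar w
  refine ⟨‖w‖, ψ, norm_nonneg _, fun x => ?_⟩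
  have h1 : f x = inner ℝ w x := by
    rw [hw, InnerProductSpace.toDual_symm_apply]
  rw [h1, real_inner_comm, L_eq_inner]
  conv_lhs => rw [hψ]
  rw [inner_smul_right]

/-- supporting direction at a frontier point -/
lemma exists_support_dir {C : Set V} (hC : Convex ℝ C) (hint : (interior C).Nonempty) {x : V}
    (hx : x ∈ frontier C) : ∃ θ, ∀ y ∈ C, L y θ ≤ L x θ := by
  obtain ⟨f, hf0, hf⟩ := geometric_hahn_banach_of_nonempty_interior_point hC hx.2 hint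
  obtain ⟨ρ, θ, hρ, hfe⟩ := dual_eq f
  refine ⟨θ, fun y hy => ?_⟩
  have hρ0 : ρ ≠ 0 := by
    rintro rfl
    apply hf0
    ext x; simp [hfe]
  have := hf y hy
  rw [hfe, hfe] at this
  exact le_of_mul_le_mul_left this (lt_of_le_of_ne hρ (Ne.symm hρ0))

/-- closed convex sets are determined by the support function -/
lemma mem_of_support {C : Set V} (hC : Convex ℝ C) (hcl : IsClosed C) {h : ℝ → ℝ} (hs : IsSupp C h)
    {x : V} (hx : ∀ θ, L x θ ≤ h θ) : x ∈ C := by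
  by_contra hxC
  obtain ⟨f, u, hf, hfx⟩ := geometric_hahn_banach_closed_point hC hcl hxC
  obtain ⟨ρ, θ, hρ, hfe⟩ := dual_eq f
  obtain ⟨y, hy, hyθ⟩ := (hs θ).1
  have h1 := hf y hy
  rw [hfe, hyθ] at h1
  rw [hfe] at hfx
  have h2 : ρ * L x θ ≤ ρ * h θ := mul_le_mul_of_nonneg_left (hx θ) hρ
  linarith

lemma key_ineq {x x' : V} {θ θ' t t' : ℝ} (ht : 0 ≤ t) (ht' : 0 ≤ t')
    (h1 : L x' θ ≤ L x θ) (h2 : L x θ' ≤ L x' θ') :
    ‖x - x'‖ ≤ ‖(x + t • nn θ) - (x' + t' • nn θ')‖ := by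
  set z := (x + t • nn θ) - (x' + t' • nn θ') with hz
  have h3 : ‖x - x'‖ ^ 2 ≤ inner ℝ z (x - x') := by
    have : inner ℝ z (x - x') = ‖x - x'‖ ^ 2 + t * (L x θ - L x' θ) - t' * (L x θ' - L x' θ') := by
      rw [inner_V, norm_sq, hz]
      simp [L]
      ring
    rw [this]
    nlinarith [mul_nonneg ht (sub_nonneg.mpr h1), mul_nonneg ht' (sub_nonneg.mpr h2)]
  have h4 : inner ℝ z (x - x') ≤ ‖z‖ * ‖x - x'‖ := real_inner_le_norm _ _
  rcases (norm_nonneg (x - x')).eq_or_lt with h5 | h5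
  · rw [← h5]; exact norm_nonneg _
  · have h6 : ‖x - x'‖ * ‖x - x'‖ ≤ ‖z‖ * ‖x - x'‖ := by nlinarith
    exact le_of_mul_le_mul_right h6 h5

/-- exit point of a ray -/
lemma exists_exit {Q : Set V} (hQc : IsCompact Q) {x : V} (hx : x ∈ Q) (θ : ℝ) :
    ∃ t : ℝ, 0 ≤ t ∧ x + t • nn θ ∈ frontier Q := by
  set T : Set ℝ := {t | 0 ≤ t ∧ x + t • nn θ ∈ Q} with hT
  have hcont : Continuous (fun t : ℝ => x + t • nn θ) := by fun_prop
  have hTcl : IsClosed T := by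
    apply IsClosed.inter isClosed_Ici (hQc.isClosed.preimage hcont)
  obtain ⟨M, hM⟩ := hQc.isBounded.exists_norm_le
  have hTb : T ⊆ Icc 0 (M + ‖x‖) := by
    rintro t ⟨ht0, htQ⟩
    refine ⟨ht0, ?_⟩
    have h1 : ‖x + t • nn θ‖ ≤ M := hM _ htQ
    have h2 : ‖t • nn θ‖ ≤ ‖x + t • nn θ‖ + ‖x‖ := by
      have : t • nn θ = (x + t • nn θ) - x := by abel
      calc ‖t • nn θ‖ = ‖(x + t • nn θ) - x‖ := by rw [← this]
        _ ≤ _ := norm_sub_le _ _
    rw [norm_smul, norm_nn, mul_one, Real.norm_eq_abs, abs_of_nonneg ht0] at h2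
    linarith
  have hTc : IsCompact T := isCompact_Icc.of_isClosed_subset hTcl hTb
  have hTne : T.Nonempty := ⟨0, le_refl _, by simpa using hx⟩
  obtain ⟨t, htT, hmax⟩ := hTc.exists_isMaxOn hTne continuousOn_id
  refine ⟨t, htT.1, ?_⟩
  rw [hQc.isClosed.frontier_eq]
  refine ⟨htT.2, fun hint => ?_⟩
  have hnhds : ∀ᶠ s in 𝓝 t, x + s • nn θ ∈ interior Q :=
    hcont.continuousAt.eventually (isOpen_interior.mem_nhds hint)
  have h2 : ∃ s, t < s ∧ x + s • nn θ ∈ interior Q := by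
    obtain ⟨ε, hε, hball⟩ := Metric.eventually_nhds_iff.mp hnhds
    refine ⟨t + ε / 2, by linarith, hball ?_⟩
    rw [Real.dist_eq]
    rw [show t + ε / 2 - t = ε / 2 by ring, abs_of_pos (by linarith)]
    linarith
  obtain ⟨s, hts, hs⟩ := h2
  have hsT : s ∈ T := ⟨by linarith [htT.1], interior_subset hs⟩
  have := hmax hsT
  simp only [id] at this
  have h7 : s ≤ t := this
  linarith

/-- monotonicity of the perimeter under inclusion -/
lemma frontier_mono {C Q : Set V} (hsup : ∀ x ∈ frontier C, ∃ θ, ∀ y ∈ C, L y θ ≤ L x θ)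
    (hcl : IsClosed C) (hQc : IsCompact Q) (hsub : C ⊆ Q) :
    μH[1] (frontier C) ≤ μH[1] (frontier Q) := by
  have hfc : ∀ x ∈ frontier C, x ∈ C := fun x hx => hcl.frontier_subset hx
  have hex : ∀ x : V, ∃ z : V, x ∈ frontier C → ∃ θ t : ℝ, 0 ≤ t ∧ z = x + t • nn θ ∧
      z ∈ frontier Q ∧ ∀ y ∈ C, L y θ ≤ L x θ := by
    intro x
    by_cases hx : x ∈ frontier C
    · obtain ⟨θ, hθ⟩ := hsup x hx
      obtain ⟨t, ht, hz⟩ := exists_exit hQc (hsub (hfc x hx)) θ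
      exact ⟨x + t • nn θ, fun _ => ⟨θ, t, ht, rfl, hz, hθ⟩⟩
    · exact ⟨0, fun h => absurd h hx⟩
  choose z hz using hex
  have hexp : ∀ x ∈ frontier C, ∀ x' ∈ frontier C, ‖x - x'‖ ≤ ‖z x - z x'‖ := by
    intro x hx x' hx'
    obtain ⟨θ, t, ht, hzx, -, hsx⟩ := hz x hx
    obtain ⟨θ', t', ht', hzx', -, hsx'⟩ := hz x' hx'
    rw [hzx, hzx']
    exact key_ineq ht ht' (hsx x' (hfc _ hx')) (hsx' x (hfc _ hx))
  have hinj : InjOn z (frontier C) := by
    intro x hx x' hx' h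
    have := hexp x hx x' hx'
    rw [h, sub_self, norm_zero] at this
    exact sub_eq_zero.mp (norm_le_zero_iff.mp this)
  set g := Function.invFunOn z (frontier C) with hg
  have hgz : ∀ x ∈ frontier C, g (z x) = x := fun x hx =>
    hinj.leftInvOn_invFunOn hx
  have hlip : LipschitzOnWith 1 g (z '' frontier C) := by
    apply LipschitzOnWith.of_dist_le_mul
    rintro _ ⟨x, hx, rfl⟩ _ ⟨x', hx', rfl⟩
    rw [hgz x hx, hgz x' hx', dist_eq_norm, dist_eq_norm]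
    simpa using hexp x hx x' hx'
  have h1 := hlip.hausdorffMeasure_image_le (d := 1) zero_le_one
  have h2 : g '' (z '' frontier C) = frontier C := by
    rw [image_image]
    ext y
    constructor
    · rintro ⟨x, hx, rfl⟩
      show g (z x) ∈ frontier C
      rw [hgz x hx]; exact hx
    · intro hy
      exact ⟨y, hy, hgz y hy⟩
  rw [h2] at h1
  have h3 : z '' frontier C ⊆ frontier Q := by
    rintro _ ⟨x, hx, rfl⟩
    obtain ⟨_, _, _, _, h, _⟩ := hz x hx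
    exact h
  calc μH[1] (frontier C) ≤ ((1 : ℝ≥0) : ℝ≥0∞) ^ (1 : ℝ) * μH[1] (z '' frontier C) := h1
    _ = μH[1] (z '' frontier C) := by simp
    _ ≤ _ := measure_mono h3

end Pool.Agent.Helper264.Str
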