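import Pool.Agent.Helper264.StrPoly

set_option autoImplicit false
open MeasureTheory MeasureTheory.Measure Set Real Filter
open scoped ENNReal NNReal Topology

namespace Pool.Agent.Helper264.Str

namespace IsSupp
variable {C : Set V} {h : ℝ → ℝ}

lemma unique {h' : ℝ → ℝ} (hs : IsSupp C h) (hs' : IsSupp C h') : h = h' := by
  funext θ
  obtain ⟨x, hx, hxθ⟩ := (hs θ).1
  obtain ⟨y, hy, hyθ⟩ := (hs' θ).1
  apply le_antisymm
  · rw [← hxθ]; exact (hs' θ).2 x hx
  · rw [← hyθ]; exact (hs θ).2 y hy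

lemma periodic (hs : IsSupp C h) (θ : ℝ) : h (θ + 2 * π) = h θ := by
  obtain ⟨x, hx, hxθ⟩ := (hs θ).1
  obtain ⟨y, hy, hyθ⟩ := (hs (θ + 2 * π)).1
  apply le_antisymm
  · rw [← hyθ, L_add_two_pi]; exact (hs θ).2 y hy
  · rw [← hxθ, ← L_add_two_pi]; exact (hs _).2 x hx

lemma lip (hs : IsSupp C h) {D : ℝ} (hD : ∀ x ∈ C, ‖x‖ ≤ D) (θ φ : ℝ) :
    h θ ≤ h φ + D * |θ - φ| := by
  obtain ⟨x, hx, hxθ⟩ := (hs θ).1
  have h1 := L_sub_le x θ φ
  have h2 := (hs φ).2 x hx
  have h3 := abs_le.mp h1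
  have h4 : ‖x‖ * |θ - φ| ≤ D * |θ - φ| :=
    mul_le_mul_of_nonneg_right (hD x hx) (abs_nonneg _)
  rw [← hxθ]
  linarith [h3.2]

lemma continuous (hs : IsSupp C h) (hC : IsCompact C) : Continuous h := by
  obtain ⟨D, hD⟩ := hC.isBounded.exists_norm_le
  have hD0 : 0 ≤ D := by
    obtain ⟨x, hx, -⟩ := (hs 0).1
    exact (norm_nonneg x).trans (hD x hx)
  have : LipschitzWith ⟨D, hD0⟩ h := by
    apply LipschitzWith.of_dist_le_mul
    intro θ φ
    rw [Real.dist_eq, Real.dist_eq]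
    rw [abs_le]
    constructor
    · have := hs.lip hD φ θ
      rw [abs_sub_comm] at this
      show -(D * |θ - φ|) ≤ _
      linarith
    · have := hs.lip hD θ φ
      show _ ≤ D * |θ - φ|
      linarith
  exact this.continuous

lemma le_D (hs : IsSupp C h) {D : ℝ} (hD : ∀ x ∈ C, ‖x‖ ≤ D) (θ : ℝ) : h θ ≤ D := by
  obtain ⟨x, hx, hxθ⟩ := (hs θ).1
  rw [← hxθ]
  exact (L_le_norm x θ).trans (hD x hx)

lemma r_le (hs : IsSupp C h) {r : ℝ} (hr : 0 ≤ r) (hball : Metric.closedBall 0 r ⊆ C) (θ : ℝ) :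
    r ≤ h θ := by
  have h1 : r • nn θ ∈ C := by
    apply hball
    rw [mem_closedBall_zero_iff, norm_smul, norm_nn, mul_one, Real.norm_eq_abs, abs_of_nonneg hr]
  have := (hs θ).2 _ h1
  rw [L_smul, L_nn_self, mul_one] at this
  exact this

end IsSupp

lemma exists_near {δ : ℝ} (hδ : 0 < δ) (φ : ℝ) : ∃ k : ℤ, |φ - k * δ| ≤ δ / 2 := by
  refine ⟨round (φ / δ), ?_⟩
  have h1 := abs_sub_round (φ / δ)
  have h2 : φ - (round (φ / δ) : ℤ) * δ = (φ / δ - (round (φ / δ) : ℤ)) * δ := by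
    field_simp
  rw [h2, abs_mul, abs_of_pos hδ]
  nlinarith

lemma poly_bound {δ : ℝ} (hδ : 0 < δ) (hδ' : 3 * δ ≤ 2 * π) {h : ℤ → ℝ} {M : ℝ}
    (hM : ∀ k, h k ≤ M) {x : V} (hx : x ∈ Poly δ h) : ‖x‖ ≤ 2 * M := by
  obtain ⟨ψ, hψ⟩ := exists_polar x
  obtain ⟨k, hk⟩ := exists_near hδ ψ
  have h1 : L x (k * δ) = ‖x‖ * Real.cos (k * δ - ψ) := by
    conv_lhs => rw [hψ]
    rw [L_smul, L_nn]
  have h2 : 1 / 2 ≤ Real.cos (k * δ - ψ) := by
    rw [← Real.cos_pi_div_three, ← Real.cos_abs (k * δ - ψ)]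
    apply Real.cos_le_cos_of_nonneg_of_le_pi (abs_nonneg _)
    · linarith [Real.pi_pos]
    · rw [abs_sub_comm]; linarith
  have h3 := hx k
  have h4 := hM k
  rw [h1] at h3
  nlinarith [norm_nonneg x]

lemma isCompact_poly {δ : ℝ} (hδ : 0 < δ) (hδ' : 3 * δ ≤ 2 * π) {h : ℤ → ℝ} {M : ℝ}
    (hM : ∀ k, h k ≤ M) : IsCompact (Poly δ h) := by
  apply Metric.isCompact_of_isClosed_isBounded (Data.isClosed_poly δ h)
  rw [isBounded_iff_forall_norm_le]
  exact ⟨2 * M, fun x hx => poly_bound hδ hδ' hM hx⟩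

/-- a body around the origin, with its support function -/
structure Body (C : Set V) (h : ℝ → ℝ) (r D : ℝ) : Prop where
  cpt : IsCompact C
  cvx : Convex ℝ C
  supp : IsSupp C h
  rpos : 0 < r
  ball : Metric.closedBall 0 r ⊆ C
  bd : ∀ x ∈ C, ‖x‖ ≤ D

namespace Body
variable {C : Set V} {h : ℝ → ℝ} {r D : ℝ}

lemma int_ne (B : Body C h r D) : (interior C).Nonempty := by
  refine ⟨0, ?_⟩
  rw [mem_interior]
  exact ⟨Metric.ball 0 r, Metric.ball_subset_closedBall.trans B.ball, Metric.isOpen_ball,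
    Metric.mem_ball_self B.rpos⟩

lemma D_pos (B : Body C h r D) : 0 < D := by
  have h1 := B.supp.r_le B.rpos.le B.ball 0
  have h2 := B.supp.le_D B.bd 0
  linarith [B.rpos]

lemma exists_data (B : Body C h r D) {N : ℕ} (hN : 3 ≤ N) {δ : ℝ} (hδ : (N : ℝ) * δ = 2 * π)
    {l : ℝ} (hl : 0 < l) : ∃ X : ℤ → V, Pool.Agent.Helper264.Str.Data N δ (fun k => l * h (k * δ)) X := by
  have := fun θ => (B.supp θ).1
  choose x hxC hx using this
  refine ⟨fun k => l • x (k * δ), hN, hδ, ?_, ?_, ?_, ?_⟩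
  · intro k
    have : ((k + N : ℤ) : ℝ) * δ = k * δ + 2 * π := by push_cast; linear_combination hδ
    show l * h (((k + N : ℤ) : ℝ) * δ) = l * h (k * δ)
    rw [this, B.supp.periodic]
  · intro k
    show L (l • x (k * δ)) (k * δ) = l * h (k * δ)
    rw [L_smul, hx]
  · intro k j
    show L (l • x (k * δ)) (j * δ) ≤ l * h (j * δ)
    rw [L_smul]
    exact mul_le_mul_of_nonneg_left ((B.supp _).2 _ (hxC _)) hl.le
  · intro k
    exact mul_pos hl (lt_of_lt_of_le B.rpos (B.supp.r_le B.rpos.le B.ball _))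

lemma upper (B : Body C h r D) {N : ℕ} (hN : 3 ≤ N) {δ : ℝ} (hδ : (N : ℝ) * δ = 2 * π) :
    μH[1] (frontier C) ≤ ENNReal.ofReal
      (2 * Real.tan (δ / 2) * ∑ k ∈ Finset.range N, h (k * δ)) := by
  obtain ⟨X, dat⟩ := B.exists_data hN hδ one_pos
  have h1 := dat.perimeter
  have h2 : μH[1] (frontier C) ≤ μH[1] (frontier (Poly δ (fun k => 1 * h (k * δ)))) := by
    apply frontier_mono
    · intro x hx; exact exists_support_dir B.cvx B.int_ne hx
    · exact B.cpt.isClosed
    · exact isCompact_poly dat.δpos dat.δlt (M := D) (fun k => by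
        rw [one_mul]; exact B.supp.le_D B.bd _)
    · intro x hx k
      show L x (k * δ) ≤ 1 * h (k * δ)
      rw [one_mul]
      exact (B.supp _).2 x hx
  rw [h1] at h2
  simpa using h2

lemma lower (B : Body C h r D) {N : ℕ} (hN : 3 ≤ N) {δ : ℝ} (hδ : (N : ℝ) * δ = 2 * π)
    {l : ℝ} (hl : 0 < l) (hl1 : l ≤ 1) (hlr : 2 * D * δ ≤ (1 - l) * r) :
    ENNReal.ofReal (2 * Real.tan (δ / 2) * ∑ k ∈ Finset.range N, l * h (k * δ))
      ≤ μH[1] (frontier C) := by
  obtain ⟨X, dat⟩ := B.exists_data hN hδ hl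
  have h1 := dat.perimeter
  have hDp := B.D_pos
  have hδp := dat.δpos
  have hbd : ∀ k : ℤ, l * h (k * δ) ≤ D := by
    intro k
    have h3 := B.supp.le_D B.bd (k * δ)
    have h4 := B.supp.r_le B.rpos.le B.ball (k * δ)
    nlinarith [B.rpos]
  have h2 : μH[1] (frontier (Poly δ (fun k => l * h (k * δ)))) ≤ μH[1] (frontier C) := by
    apply frontier_mono
    · intro x hx
      rw [dat.frontier_poly] at hx
      simp only [mem_iUnion] at hx
      obtain ⟨k, -, hxP, hxk⟩ := hx
      refine ⟨((k : ℕ) : ℤ) * δ, fun y hy => ?_⟩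
      rw [hxk]
      exact hy _
    · exact Data.isClosed_poly _ _
    · exact B.cpt
    · intro x hx
      apply mem_of_support B.cvx B.cpt.isClosed B.supp
      intro φ
      obtain ⟨k, hk⟩ := exists_near hδp φ
      have hxn := poly_bound hδp dat.δlt hbd hx
      have h3 := hx k
      have h4 := (abs_le.mp (L_sub_le x φ (k * δ))).2
      have h5 := B.supp.lip B.bd (k * δ) φ
      rw [abs_sub_comm] at h5
      have h6 := B.supp.r_le B.rpos.le B.ball φ
      have h7 : ‖x‖ * |φ - k * δ| ≤ (2 * D) * (δ / 2) :=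
        mul_le_mul hxn hk (abs_nonneg _) (by linarith)
      have h8 : D * |φ - k * δ| ≤ D * (δ / 2) := mul_le_mul_of_nonneg_left hk hDp.le
      have h9 : l * h (k * δ) ≤ l * h φ + l * (D * (δ / 2)) := by nlinarith
      have h10 : l * (D * (δ / 2)) ≤ D * (δ / 2) := by
        have : 0 ≤ D * (δ / 2) := by positivity
        nlinarith
      have h11 : (1 - l) * r ≤ (1 - l) * h φ := mul_le_mul_of_nonneg_left h6 (by linarith)
      have h3' : L x (k * δ) ≤ l * h (k * δ) := h3
      have h12 : 0 ≤ D * δ := by positivity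
      nlinarith
  rw [h1] at h2
  exact h2

lemma riemann_aux {h : ℝ → ℝ} (hcont : Continuous h) {D : ℝ}
    (hlip : ∀ θ φ, |h θ - h φ| ≤ D * |θ - φ|) {δ : ℝ} (hδ : 0 < δ) (N : ℕ) :
    |δ * ∑ k ∈ Finset.range N, h (k * δ) - ∫ θ in (0 : ℝ)..(N * δ), h θ| ≤ N * (D * δ ^ 2) := by
  induction N with
  | zero => simp
  | succ n ih =>
    have hint : ∀ a b, IntervalIntegrable h volume a b := fun a b => hcont.intervalIntegrable a b
    rw [Finset.sum_range_succ, mul_add]
    have h1 : (∫ θ in (0 : ℝ)..((n + 1 : ℕ) * δ), h θ)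
        = (∫ θ in (0 : ℝ)..(n * δ), h θ) + ∫ θ in (n * δ)..((n + 1 : ℕ) * δ), h θ :=
      (intervalIntegral.integral_add_adjacent_intervals (hint _ _) (hint _ _)).symm
    rw [h1]
    have h2 : |δ * h (n * δ) - ∫ θ in (n * δ)..((n + 1 : ℕ) * δ), h θ| ≤ D * δ ^ 2 := by
      have h3 : δ * h (n * δ) = ∫ θ in (n * δ)..((n + 1 : ℕ) * δ), h (n * δ) := by
        rw [intervalIntegral.integral_const, smul_eq_mul]
        push_cast; ring
      rw [h3, ← intervalIntegral.integral_sub (by simp) (hint _ _)]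
      have hD : 0 ≤ D := by
        have := hlip 1 0
        simp at this
        exact (abs_nonneg _).trans this
      have h4 : ∀ θ ∈ Set.uIoc ((n : ℝ) * δ) ((n + 1 : ℕ) * δ), ‖h (n * δ) - h θ‖ ≤ D * δ := by
        intro θ hθ
        rw [Set.uIoc_of_le (by push_cast; nlinarith)] at hθ
        rw [Real.norm_eq_abs]
        refine (hlip _ _).trans ?_
        apply mul_le_mul_of_nonneg_left _ hD
        rw [abs_sub_comm, abs_of_nonneg (by linarith [hθ.1])]
        have := hθ.2
        push_cast at this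
        linarith
      have h5 := intervalIntegral.norm_integral_le_of_norm_le_const h4
      rw [Real.norm_eq_abs] at h5
      have h6 : |((n + 1 : ℕ) : ℝ) * δ - n * δ| = δ := by
        push_cast
        rw [show ((n : ℝ) + 1) * δ - n * δ = δ by ring, abs_of_pos hδ]
      rw [h6] at h5
      calc _ ≤ _ := h5
        _ = _ := by ring
    have h7 : δ * ∑ k ∈ Finset.range n, h (k * δ) + δ * h (n * δ)
        - ((∫ θ in (0 : ℝ)..(n * δ), h θ) + ∫ θ in (n * δ)..((n + 1 : ℕ) * δ), h θ)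
        = (δ * ∑ k ∈ Finset.range n, h (k * δ) - ∫ θ in (0 : ℝ)..(n * δ), h θ)
        + (δ * h (n * δ) - ∫ θ in (n * δ)..((n + 1 : ℕ) * δ), h θ) := by ring
    rw [h7]
    refine (abs_add_le _ _).trans ?_
    push_cast
    push_cast at ih h2
    linarith

lemma tan_lim : Tendsto (fun x : ℝ => x⁻¹ * (2 * Real.tan (x / 2))) (𝓝[≠] 0) (𝓝 1) := by
  have h1 : HasDerivAt (fun x : ℝ => 2 * Real.tan (x / 2)) 1 0 := by
    have h2 : HasDerivAt Real.tan (1 / Real.cos ((0 : ℝ) / 2) ^ 2) ((0 : ℝ) / 2) :=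
      Real.hasDerivAt_tan (by simp)
    have h3 : HasDerivAt (fun x : ℝ => x / 2) (1 / 2) 0 := (hasDerivAt_id 0).div_const 2
    have h4 := (h2.comp 0 h3).const_mul 2
    simp at h4
    exact h4
  have h5 := hasDerivAt_iff_tendsto_slope_zero.mp h1
  simpa using h5

lemma dist_lip (B : Body C h r D) (θ φ : ℝ) : |h θ - h φ| ≤ D * |θ - φ| := by
  rw [abs_le]
  constructor
  · have := B.supp.lip B.bd φ θ
    rw [abs_sub_comm] at this
    linarith
  · have := B.supp.lip B.bd θ φ
    linarith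

lemma tendsto_upper (B : Body C h r D) :
    Tendsto (fun N : ℕ => 2 * Real.tan (2 * π / N / 2) *
      ∑ k ∈ Finset.range N, h (k * (2 * π / N))) atTop (𝓝 (∫ θ in (0 : ℝ)..(2 * π), h θ)) := by
  have hδ0 : Tendsto (fun N : ℕ => 2 * π / (N : ℝ)) atTop (𝓝 0) :=
    tendsto_const_nhds.div_atTop tendsto_natCast_atTop_atTop
  have hpi := Real.pi_pos
  have hδ : Tendsto (fun N : ℕ => 2 * π / (N : ℝ)) atTop (𝓝[≠] 0) := by
    rw [tendsto_nhdsWithin_iff]
    refine ⟨hδ0, ?_⟩
    filter_upwards [eventually_gt_atTop 0] with N hN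
    have : (0 : ℝ) < N := by exact_mod_cast hN
    exact (div_pos (by linarith) this).ne'
  have h1 := tan_lim.comp hδ
  have h2 : Tendsto (fun N : ℕ => (2 * π / N) * ∑ k ∈ Finset.range N, h (k * (2 * π / N)))
      atTop (𝓝 (∫ θ in (0 : ℝ)..(2 * π), h θ)) := by
    have hb : Tendsto (fun N : ℕ => 2 * π * D * (2 * π / (N : ℝ))) atTop (𝓝 0) := by
      simpa using hδ0.const_mul (2 * π * D)
    rw [tendsto_iff_dist_tendsto_zero]
    refine squeeze_zero' (Eventually.of_forall fun _ => dist_nonneg) ?_ hb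
    filter_upwards [eventually_gt_atTop 0] with N hN
    have hNR : (0 : ℝ) < N := by exact_mod_cast hN
    have h3 := riemann_aux (B.supp.continuous B.cpt) B.dist_lip (δ := 2 * π / N)
      (div_pos (by linarith) hNR) N
    have h4 : (N : ℝ) * (2 * π / N) = 2 * π := by field_simp
    rw [h4] at h3
    rw [Real.dist_eq]
    refine h3.trans (le_of_eq ?_)
    have : (N : ℝ) * (D * (2 * π / N) ^ 2) = D * (2 * π / N) * (N * (2 * π / N)) := by ring
    rw [this, h4]; ring
  have h3 := h1.mul h2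
  rw [one_mul] at h3
  refine h3.congr' ?_
  filter_upwards [eventually_gt_atTop 0] with N hN
  have hNR : (0 : ℝ) < N := by exact_mod_cast hN
  simp only [Function.comp]
  field_simp

/-- Cauchy's formula for a body around the origin -/
theorem cauchy (B : Body C h r D) :
    μH[1] (frontier C) = ENNReal.ofReal (∫ θ in (0 : ℝ)..(2 * π), h θ) := by
  have hpi := Real.pi_pos
  have hlim := B.tendsto_upper
  have hDp := B.D_pos
  have hδ0 : Tendsto (fun N : ℕ => 2 * π / (N : ℝ)) atTop (𝓝 0) :=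
    tendsto_const_nhds.div_atTop tendsto_natCast_atTop_atTop
  apply le_antisymm
  · refine ge_of_tendsto ((ENNReal.continuous_ofReal.tendsto _).comp hlim) ?_
    filter_upwards [eventually_ge_atTop 3] with N hN
    have hNR : (0 : ℝ) < N := by
      have : 0 < N := by omega
      exact_mod_cast this
    exact B.upper hN (by field_simp)
  · have hl : Tendsto (fun N : ℕ => 1 - 2 * D * (2 * π / (N : ℝ)) / r) atTop (𝓝 1) := by
      have := (hδ0.const_mul (2 * D)).div_const r
      simpa using this.const_sub 1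
    have h1 := hl.mul hlim
    rw [one_mul] at h1
    refine le_of_tendsto ((ENNReal.continuous_ofReal.tendsto _).comp h1) ?_
    have hev : ∀ᶠ N : ℕ in atTop, 0 < 1 - 2 * D * (2 * π / (N : ℝ)) / r :=
      hl.eventually (lt_mem_nhds one_pos)
    filter_upwards [eventually_ge_atTop 3, hev] with N hN hpos
    have hNR : (0 : ℝ) < N := by
      have : 0 < N := by omega
      exact_mod_cast this
    have hr := B.rpos
    have h2 := B.lower hN (δ := 2 * π / N) (by field_simp) hpos (by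
      have : 0 ≤ 2 * D * (2 * π / (N : ℝ)) / r := by positivity
      linarith) (by
      have : (1 - (1 - 2 * D * (2 * π / (N : ℝ)) / r)) * r = 2 * D * (2 * π / N) := by
        field_simp
        ring
      rw [this])
    simp only [Function.comp]
    rw [← Finset.mul_sum] at h2
    refine le_trans (le_of_eq ?_) h2
    congr 1
    ring

end Body

/-- translation of the support function -/
lemma IsSupp.translate {C : Set V} {h : ℝ → ℝ} (hs : IsSupp C h) (z : V) :
    IsSupp ((fun x => x - z) '' C) (fun θ => h θ - L z θ) := by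
  intro θ
  obtain ⟨x, hx, hxθ⟩ := (hs θ).1
  refine ⟨⟨x - z, ⟨x, hx, rfl⟩, ?_⟩, ?_⟩
  · rw [L_sub, hxθ]
  · rintro _ ⟨y, hy, rfl⟩
    rw [L_sub]
    have := (hs θ).2 y hy
    linarith

lemma integral_L (z : V) : ∫ θ in (0 : ℝ)..(2 * π), L z θ = 0 := by
  unfold L
  rw [intervalIntegral.integral_add, intervalIntegral.integral_const_mul,
    intervalIntegral.integral_const_mul, integral_cos, integral_sin]
  · simp
  · exact (Continuous.intervalIntegrable (by fun_prop) _ _)
  · exact (Continuous.intervalIntegrable (by fun_prop) _ _)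

lemma exists_body {C : Set V} (hC : IsCompact C) (hcv : Convex ℝ C) {z : V} (hz : z ∈ interior C)
    {h : ℝ → ℝ} (hs : IsSupp C h) :
    ∃ r D, Body ((fun x => x - z) '' C) (fun θ => h θ - L z θ) r D := by
  obtain ⟨ε, hε, hball⟩ := Metric.isOpen_iff.mp isOpen_interior z hz
  have hc : IsCompact ((fun x => x - z) '' C) := hC.image (by fun_prop)
  obtain ⟨D, hD⟩ := hc.isBounded.exists_norm_le
  refine ⟨ε / 2, D, hc, ?_, hs.translate z, by linarith, ?_, hD⟩
  · have := hcv.translate (-z)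
    have h2 : (fun x => x - z) '' C = (fun x => -z + x) '' C := by
      apply image_congr
      intro x _
      abel
    rw [h2]; exact this
  · intro y hy
    rw [mem_closedBall_zero_iff] at hy
    refine ⟨y + z, ?_, by simp⟩
    apply interior_subset
    apply hball
    rw [Metric.mem_ball, dist_eq_norm]
    rw [show y + z - z = y by abel]
    linarith

/-- Cauchy's formula -/
theorem cauchy_general {C : Set V} (hC : IsCompact C) (hcv : Convex ℝ C)
    (hne : (interior C).Nonempty) {h : ℝ → ℝ} (hs : IsSupp C h) :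
    μH[1] (frontier C) = ENNReal.ofReal (∫ θ in (0 : ℝ)..(2 * π), h θ) ∧
      0 ≤ ∫ θ in (0 : ℝ)..(2 * π), h θ := by
  obtain ⟨z, hz⟩ := hne
  obtain ⟨r, D, B⟩ := exists_body hC hcv hz hs
  have h1 := B.cauchy
  have hcont := hs.continuous hC
  have h2 : ∫ θ in (0 : ℝ)..(2 * π), (h θ - L z θ) = ∫ θ in (0 : ℝ)..(2 * π), h θ := by
    rw [intervalIntegral.integral_sub (hcont.intervalIntegrable _ _)
      ((continuous_L z).intervalIntegrable _ _), integral_L, sub_zero]
  rw [h2] at h1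
  have h3 : frontier ((fun x => x - z) '' C) = (fun x => x - z) '' frontier C := by
    have := (Homeomorph.subRight z).image_frontier C
    exact this.symm
  have h4 : Isometry (fun x : V => x - z) := by
    apply Isometry.of_dist_eq
    intro x y
    exact dist_sub_right x y z
  rw [h3, h4.hausdorffMeasure_image (Or.inl zero_le_one)] at h1
  refine ⟨h1, ?_⟩
  rw [← h2]
  apply intervalIntegral.integral_nonneg (by linarith [Real.pi_pos])
  intro θ _
  exact B.rpos.le.trans (B.supp.r_le B.rpos.le B.ball θ)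

end Pool.Agent.Helper264.Str
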