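import Pool.Agent.Helper264.StrAlg

set_option autoImplicit false
open MeasureTheory MeasureTheory.Measure Set Real Filter
open scoped ENNReal NNReal Topology

namespace Pool.Agent.Helper264.Str

/-- a lower triangular linear automorphism of the plane -/
noncomputable def Tlin (p q r : ℝ) (hp : p ≠ 0) (hr : r ≠ 0) : V ≃ₗ[ℝ] V where
  toFun y := !₂[p * y 0, q * y 0 + r * y 1]
  map_add' x y := by
    ext i; fin_cases i <;> simp <;> ring
  map_smul' c x := by
    ext i; fin_cases i <;> simp <;> ring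
  invFun x := !₂[x 0 / p, (x 1 - q * (x 0 / p)) / r]
  left_inv y := by
    ext i; fin_cases i
    · simp; field_simp
    · simp; field_simp; ring
  right_inv x := by
    ext i; fin_cases i
    · simp; field_simp
    · simp; field_simp; ring

lemma Tlin_apply (p q r : ℝ) (hp : p ≠ 0) (hr : r ≠ 0) (y : V) :
    Tlin p q r hp hr y = !₂[p * y 0, q * y 0 + r * y 1] := rfl

lemma L_Tlin (p q r : ℝ) (hp : p ≠ 0) (hr : r ≠ 0) (y : V) (θ : ℝ) :
    L (Tlin p q r hp hr y) θ = y 0 * (p * Real.cos θ + q * Real.sin θ) + y 1 * (r * Real.sin θ) := by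
  rw [Tlin_apply]; simp [L]; ring

/-- a body whose support function is of elliptic type is an ellipse -/
theorem ellipse_of_supp {K : Set V} (hK : IsCompact K) (hcv : Convex ℝ K) {h : ℝ → ℝ}
    (hs : IsSupp K h) (c : V) {A B C : ℝ} (hpos : ∀ θ, 0 < h θ - L c θ)
    (hsq : ∀ θ, (h θ - L c θ) ^ 2 = A + B * Real.cos (2 * θ) + C * Real.sin (2 * θ)) :
    ∃ f : V ≃ᵃ[ℝ] V, K = f '' Metric.closedBall 0 1 := by
  have hAB : 0 < A + B := by
    have h1 := hsq 0
    have h2 := hpos 0
    simp only [mul_zero, Real.cos_zero, Real.sin_zero, mul_one, add_zero] at h1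
    rw [← h1]; positivity
  set p := Real.sqrt (A + B) with hp
  have hp0 : 0 < p := Real.sqrt_pos.mpr hAB
  have hp2 : p ^ 2 = A + B := Real.sq_sqrt hAB.le
  set q := C / p with hq
  have hpq : p * q = C := by rw [hq]; field_simp
  have hform : ∀ θ, (h θ - L c θ) ^ 2 = (p * Real.cos θ + q * Real.sin θ) ^ 2
      + (A - B - q ^ 2) * Real.sin θ ^ 2 := by
    intro θ
    rw [hsq, Real.cos_two_mul, Real.sin_two_mul]
    have := Real.sin_sq_add_cos_sq θ
    linear_combination (-(Real.cos θ) ^ 2) * hp2 - (2 * Real.cos θ * Real.sin θ) * hpq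
      + (B - A) * this
  have hr2pos : 0 < A - B - q ^ 2 := by
    obtain ⟨ψ, hψ⟩ := exists_polar (!₂[q, -p] : V)
    set ρ := ‖(!₂[q, -p] : V)‖ with hρ
    have e0 : q = ρ * Real.cos ψ := by
      have := congrFun (congrArg WithLp.ofLp hψ) 0
      simpa using this
    have e1 : -p = ρ * Real.sin ψ := by
      have := congrFun (congrArg WithLp.ofLp hψ) 1
      simpa using this
    have hρ0 : ρ ≠ 0 := by
      intro h0
      rw [h0, zero_mul] at e1
      linarith
    have e2 : p * Real.cos ψ + q * Real.sin ψ = 0 := by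
      have : ρ * (p * Real.cos ψ + q * Real.sin ψ) = 0 := by
        linear_combination (-p) * e0 - q * e1
      exact (mul_eq_zero.mp this).resolve_left hρ0
    have h1 := hform ψ
    rw [e2] at h1
    have h2 := hpos ψ
    have h3 : 0 < (A - B - q ^ 2) * Real.sin ψ ^ 2 := by
      have : 0 < (h ψ - L c ψ) ^ 2 := by positivity
      nlinarith
    exact pos_of_mul_pos_left h3 (sq_nonneg _)
  set r := Real.sqrt (A - B - q ^ 2) with hr
  have hr0 : 0 < r := Real.sqrt_pos.mpr hr2pos
  have hr2 : r ^ 2 = A - B - q ^ 2 := Real.sq_sqrt hr2pos.le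
  have hform2 : ∀ θ, (h θ - L c θ) ^ 2 = (p * Real.cos θ + q * Real.sin θ) ^ 2
      + (r * Real.sin θ) ^ 2 := by
    intro θ
    rw [hform, mul_pow, hr2]
  set T := Tlin p q r hp0.ne' hr0.ne' with hT
  refine ⟨T.toAffineEquiv.trans (AffineEquiv.constVAdd ℝ V c), ?_⟩
  have hfa : ∀ y : V, (T.toAffineEquiv.trans (AffineEquiv.constVAdd ℝ V c)) y = c + T y := by
    intro y; simp
  ext x
  constructor
  · intro hx
    set y := T.symm (x - c) with hy
    have hTy : T y = x - c := T.apply_symm_apply _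
    refine ⟨y, ?_, by rw [hfa, hTy]; abel⟩
    rw [mem_closedBall_zero_iff]
    -- choose the direction
    set w : V := !₂[(y 0 - q * (y 1 / r)) / p, y 1 / r] with hw
    obtain ⟨ψ, hψ⟩ := exists_polar w
    set ρ := ‖w‖ with hρ
    have e0 : (y 0 - q * (y 1 / r)) / p = ρ * Real.cos ψ := by
      have := congrFun (congrArg WithLp.ofLp hψ) 0
      simpa [hw] using this
    have e1 : y 1 / r = ρ * Real.sin ψ := by
      have := congrFun (congrArg WithLp.ofLp hψ) 1
      simpa [hw] using this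
    have e2 : y 1 = ρ * (r * Real.sin ψ) := by
      rw [div_eq_iff hr0.ne'] at e1
      rw [e1]; ring
    have e3 : y 0 = ρ * (p * Real.cos ψ + q * Real.sin ψ) := by
      rw [e1, div_eq_iff hp0.ne'] at e0
      linarith
    have hle : L (T y) ψ ≤ h ψ - L c ψ := by
      rw [hTy, L_sub]
      have := (hs ψ).2 x hx
      linarith
    rw [hT, L_Tlin] at hle
    have hn := norm_sq y
    have hρ0 : 0 ≤ ρ := norm_nonneg _
    set s := p * Real.cos ψ + q * Real.sin ψ with hs'
    set t := r * Real.sin ψ with ht'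
    have hf2 := hform2 ψ
    rw [← hs', ← ht'] at hf2
    set e := h ψ - L c ψ with he
    have hepos : 0 < e := hpos ψ
    -- ‖y‖^2 = ρ^2 e^2, and ρ e^2 ≤ e
    have h5 : ‖y‖ ^ 2 = (ρ * e) ^ 2 := by
      rw [hn, e2, e3, mul_pow ρ e, hf2]; ring
    have h6 : ρ * e ^ 2 ≤ e := by
      rw [hf2]
      rw [e2, e3] at hle
      calc ρ * (s ^ 2 + t ^ 2) = ρ * s * s + ρ * t * t := by ring
        _ ≤ e := hle
    have h7 : ρ * e ≤ 1 := by
      by_contra hc
      push Not at hc
      nlinarith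
    have h8 : ‖y‖ = ρ * e :=
      (sq_eq_sq₀ (norm_nonneg _) (by positivity)).mp h5
    rw [h8]; exact h7
  · rintro ⟨y, hy, rfl⟩
    rw [mem_closedBall_zero_iff] at hy
    apply mem_of_support hcv hK.isClosed hs
    intro θ
    rw [hfa, L_add, hT, L_Tlin]
    set s := p * Real.cos θ + q * Real.sin θ with hs'
    set t := r * Real.sin θ with ht'
    have hf2 := hform2 θ
    rw [← hs', ← ht'] at hf2
    have hn := norm_sq y
    have hepos : 0 < h θ - L c θ := hpos θ
    have h1 : (y 0 * s + y 1 * t) ^ 2 ≤ (h θ - L c θ) ^ 2 := by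
      rw [hf2]
      have h2 : y 0 ^ 2 + y 1 ^ 2 ≤ 1 := by
        rw [← hn]
        have := norm_nonneg y
        nlinarith
      have h3 : (y 0 * s + y 1 * t) ^ 2 ≤ (y 0 ^ 2 + y 1 ^ 2) * (s ^ 2 + t ^ 2) := by
        nlinarith [sq_nonneg (y 0 * t - y 1 * s)]
      have h4 : (y 0 ^ 2 + y 1 ^ 2) * (s ^ 2 + t ^ 2) ≤ 1 * (s ^ 2 + t ^ 2) :=
        mul_le_mul_of_nonneg_right h2 (by positivity)
      linarith
    have h5 := abs_le_of_sq_le_sq h1 hepos.le
    linarith [(abs_le.mp h5).2]

end Pool.Agent.Helper264.Str
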