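import Pool.Agent.Helper264.StrMoment

set_option autoImplicit false
open MeasureTheory MeasureTheory.Measure Set Real Filter
open scoped ENNReal NNReal Topology

namespace Pool.Agent.Helper264.Str

open Polynomial.Chebyshev in
/-- low coefficients of the Chebyshev polynomials -/
lemma cheb_coeffs (m : ℕ) :
    ((T ℝ (2 * m : ℕ)).coeff 0 = (-1) ^ m ∧ (T ℝ (2 * m : ℕ)).coeff 1 = 0 ∧
      (T ℝ (2 * m : ℕ)).coeff 2 = (-1) ^ (m + 1) * (2 * (m : ℝ) ^ 2) ∧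
      (T ℝ (2 * m : ℕ)).coeff 3 = 0 ∧
      (T ℝ (2 * m : ℕ)).coeff 4 = (-1) ^ m * ((2 / 3) * (m : ℝ) ^ 2 * ((m : ℝ) ^ 2 - 1))) ∧
    ((T ℝ (2 * m + 1 : ℕ)).coeff 0 = 0 ∧
      (T ℝ (2 * m + 1 : ℕ)).coeff 1 = (-1) ^ m * (2 * (m : ℝ) + 1) ∧
      (T ℝ (2 * m + 1 : ℕ)).coeff 2 = 0 ∧
      (T ℝ (2 * m + 1 : ℕ)).coeff 3 = (-1) ^ (m + 1) * ((2 / 3) * (m : ℝ) * (m + 1) * (2 * m + 1)) ∧
      (T ℝ (2 * m + 1 : ℕ)).coeff 4 = 0) := by
  induction m with
  | zero =>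
    simp only [Nat.mul_zero, Nat.cast_zero, T_zero, Nat.zero_add, Nat.cast_one, T_one]
    simp [Polynomial.coeff_one, Polynomial.coeff_X]
  | succ m ih =>
    obtain ⟨⟨a0, a1, a2, a3, a4⟩, b0, b1, b2, b3, b4⟩ := ih
    have e1 : T ℝ ((2 * (m + 1) : ℕ) : ℤ) = 2 * Polynomial.X * T ℝ ((2 * m + 1 : ℕ) : ℤ)
        - T ℝ ((2 * m : ℕ) : ℤ) := by
      have := T_add_two ℝ ((2 * m : ℕ) : ℤ)
      push_cast at this ⊢
      rw [show (2 * ((m : ℤ) + 1)) = 2 * m + 2 by ring]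
      exact this
    have e2 : T ℝ ((2 * (m + 1) + 1 : ℕ) : ℤ) = 2 * Polynomial.X * T ℝ ((2 * (m + 1) : ℕ) : ℤ)
        - T ℝ ((2 * m + 1 : ℕ) : ℤ) := by
      have := T_add_two ℝ ((2 * m + 1 : ℕ) : ℤ)
      push_cast at this ⊢
      rw [show (2 * ((m : ℤ) + 1) + 1) = 2 * m + 1 + 2 by ring,
        show (2 * ((m : ℤ) + 1)) = 2 * m + 1 + 1 by ring]
      exact this
    have c0 : ∀ P : Polynomial ℝ, (2 * Polynomial.X * P).coeff 0 = 0 := by
      intro P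
      rw [show 2 * Polynomial.X * P = Polynomial.C 2 * (P * Polynomial.X) by
        rw [show (Polynomial.C (2 : ℝ)) = 2 from rfl]; ring, Polynomial.coeff_C_mul]
      simp
    have cs : ∀ (P : Polynomial ℝ) (k : ℕ), (2 * Polynomial.X * P).coeff (k + 1) = 2 * P.coeff k := by
      intro P k
      rw [show 2 * Polynomial.X * P = Polynomial.C 2 * (P * Polynomial.X) by
        rw [show (Polynomial.C (2 : ℝ)) = 2 from rfl]; ring, Polynomial.coeff_C_mul,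
        Polynomial.coeff_mul_X]
    have f0 : (T ℝ ((2 * (m + 1) : ℕ) : ℤ)).coeff 0 = (-1) ^ (m + 1) := by
      rw [e1, Polynomial.coeff_sub, c0, a0]; ring
    have f1 : (T ℝ ((2 * (m + 1) : ℕ) : ℤ)).coeff 1 = 0 := by
      rw [e1, Polynomial.coeff_sub, cs _ 0, b0, a1]; ring
    have f2 : (T ℝ ((2 * (m + 1) : ℕ) : ℤ)).coeff 2
        = (-1) ^ (m + 1 + 1) * (2 * ((m + 1 : ℕ) : ℝ) ^ 2) := by
      rw [e1, Polynomial.coeff_sub, cs _ 1, b1, a2]; push_cast; ring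
    have f3 : (T ℝ ((2 * (m + 1) : ℕ) : ℤ)).coeff 3 = 0 := by
      rw [e1, Polynomial.coeff_sub, cs _ 2, b2, a3]; ring
    have f4 : (T ℝ ((2 * (m + 1) : ℕ) : ℤ)).coeff 4
        = (-1) ^ (m + 1) * ((2 / 3) * ((m + 1 : ℕ) : ℝ) ^ 2 * (((m + 1 : ℕ) : ℝ) ^ 2 - 1)) := by
      rw [e1, Polynomial.coeff_sub, cs _ 3, b3, a4]; push_cast; ring
    refine ⟨⟨f0, f1, f2, f3, f4⟩, ?_, ?_, ?_, ?_, ?_⟩
    · rw [e2, Polynomial.coeff_sub, c0, b0]; ring
    · rw [e2, Polynomial.coeff_sub, cs _ 0, f0, b1]; push_cast; ring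
    · rw [e2, Polynomial.coeff_sub, cs _ 1, f1, b2]; ring
    · rw [e2, Polynomial.coeff_sub, cs _ 2, f2, b3]; push_cast; ring
    · rw [e2, Polynomial.coeff_sub, cs _ 3, f3, b4]; ring

open Polynomial.Chebyshev in
lemma coeff_one_ne (n : ℤ) (hn : Odd n) : (T ℝ n).coeff 1 ≠ 0 := by
  rw [← T_natAbs]
  obtain ⟨m, hm⟩ : Odd n.natAbs := Int.natAbs_odd.mpr hn
  rw [hm, (cheb_coeffs m).2.2.1]
  positivity

open Polynomial.Chebyshev in
lemma coeff_two_ne (n : ℤ) (hn : Even n) (h0 : n ≠ 0) : (T ℝ n).coeff 2 ≠ 0 := by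
  rw [← T_natAbs]
  obtain ⟨m, hm⟩ : Even n.natAbs := Int.natAbs_even.mpr hn
  have hm0 : m ≠ 0 := by omega
  rw [hm, ← two_mul, (cheb_coeffs m).1.2.2.1]
  positivity

open Polynomial.Chebyshev in
lemma coeff_three_ne (n : ℤ) (hn : Odd n) (h1 : n ≠ 1) (h2 : n ≠ -1) : (T ℝ n).coeff 3 ≠ 0 := by
  rw [← T_natAbs]
  obtain ⟨m, hm⟩ : Odd n.natAbs := Int.natAbs_odd.mpr hn
  have hm0 : m ≠ 0 := by omega
  rw [hm, (cheb_coeffs m).2.2.2.2.1]
  positivity

open Polynomial.Chebyshev in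
lemma coeff_four_ne (n : ℤ) (hn : Even n) (h0 : n ≠ 0) (h1 : n ≠ 2) (h2 : n ≠ -2) :
    (T ℝ n).coeff 4 ≠ 0 := by
  rw [← T_natAbs]
  obtain ⟨m, hm⟩ : Even n.natAbs := Int.natAbs_even.mpr hn
  have hm0 : 2 ≤ m := by omega
  rw [hm, ← two_mul, (cheb_coeffs m).1.2.2.2.2]
  have hmR : (2 : ℝ) ≤ m := by exact_mod_cast hm0
  have : (m : ℝ) ^ 2 - 1 ≠ 0 := by nlinarith
  positivity

/-- moments -/
noncomputable def mom (u : ℝ → ℝ) (n : ℤ) (k : ℕ) : ℂ :=
  ∫ θ in (0 : ℝ)..(2 * π), ee n θ * ((u θ ^ k : ℝ) : ℂ)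

lemma cheb_expand {u : ℝ → ℝ} (hu : Continuous u) (n : ℤ) (x : ℝ) :
    ∫ θ in (0 : ℝ)..(2 * π), ee n θ * (((Polynomial.Chebyshev.T ℝ n).eval (x * u θ) : ℝ) : ℂ)
      = ∑ k ∈ (Polynomial.Chebyshev.T ℝ n).support,
        (((Polynomial.Chebyshev.T ℝ n).coeff k : ℝ) : ℂ) * mom u n k * (x : ℂ) ^ k := by
  have h1 : ∀ θ, ee n θ * (((Polynomial.Chebyshev.T ℝ n).eval (x * u θ) : ℝ) : ℂ)
      = ∑ k ∈ (Polynomial.Chebyshev.T ℝ n).support,
        ((((Polynomial.Chebyshev.T ℝ n).coeff k : ℝ) : ℂ) * (x : ℂ) ^ k) *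
          (ee n θ * ((u θ ^ k : ℝ) : ℂ)) := by
    intro θ
    rw [Polynomial.eval_eq_sum, Polynomial.sum]
    push_cast
    rw [Finset.mul_sum]
    apply Finset.sum_congr rfl
    intro k _
    rw [mul_pow]; ring
  simp only [h1]
  rw [intervalIntegral.integral_finsetSum]
  · apply Finset.sum_congr rfl
    intro k _
    rw [intervalIntegral.integral_const_mul]
    unfold mom
    ring
  · intro k _
    apply Continuous.intervalIntegrable
    exact continuous_const.mul ((ee_cont n).mul (Complex.continuous_ofReal.comp (hu.pow k)))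

lemma mom_eq {u₁ u₂ : ℝ → ℝ} (hu₁ : Continuous u₁) (hu₂ : Continuous u₂) {M : ℝ} (hM : 0 < M) (n : ℤ)
    (h : ∀ R : ℝ, M < R →
      ∫ θ in (0 : ℝ)..(2 * π), ee n θ * (((Polynomial.Chebyshev.T ℝ n).eval (u₁ θ / R) : ℝ) : ℂ)
      = ∫ θ in (0 : ℝ)..(2 * π), ee n θ * (((Polynomial.Chebyshev.T ℝ n).eval (u₂ θ / R) : ℝ) : ℂ))
    (k : ℕ) (hk : (Polynomial.Chebyshev.T ℝ n).coeff k ≠ 0) : mom u₁ n k = mom u₂ n k := by
  set W : Polynomial ℂ := ∑ j ∈ (Polynomial.Chebyshev.T ℝ n).support,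
    Polynomial.monomial j ((((Polynomial.Chebyshev.T ℝ n).coeff j : ℝ) : ℂ) *
      (mom u₁ n j - mom u₂ n j)) with hW
  have hWeval : ∀ x : ℝ, 0 < x → x < 1 / M → W.eval (x : ℂ) = 0 := by
    intro x hx0 hx1
    have hR : M < 1 / x := by
      rw [lt_div_iff₀ hx0]
      rw [lt_div_iff₀ hM] at hx1
      linarith
    have h1 := h (1 / x) hR
    have e : ∀ y : ℝ, y / (1 / x) = x * y := by intro y; field_simp
    simp only [e] at h1
    rw [cheb_expand hu₁, cheb_expand hu₂] at h1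
    rw [hW, Polynomial.eval_finsetSum]
    simp only [Polynomial.eval_monomial]
    have : ∑ j ∈ (Polynomial.Chebyshev.T ℝ n).support,
        (((Polynomial.Chebyshev.T ℝ n).coeff j : ℝ) : ℂ) * (mom u₁ n j - mom u₂ n j) * (x : ℂ) ^ j
      = (∑ j ∈ (Polynomial.Chebyshev.T ℝ n).support,
        (((Polynomial.Chebyshev.T ℝ n).coeff j : ℝ) : ℂ) * mom u₁ n j * (x : ℂ) ^ j)
      - ∑ j ∈ (Polynomial.Chebyshev.T ℝ n).support,
        (((Polynomial.Chebyshev.T ℝ n).coeff j : ℝ) : ℂ) * mom u₂ n j * (x : ℂ) ^ j := by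
      rw [← Finset.sum_sub_distrib]
      apply Finset.sum_congr rfl
      intro j _
      ring
    rw [this, h1, sub_self]
  have hW0 : W = 0 := by
    apply Polynomial.eq_zero_of_infinite_isRoot
    have hinf : (Ioo (0 : ℝ) (1 / M)).Infinite := Ioo_infinite (by positivity)
    have himg : ((fun x : ℝ => (x : ℂ)) '' Ioo (0 : ℝ) (1 / M)).Infinite :=
      hinf.image (Complex.ofReal_injective.injOn)
    apply himg.mono
    rintro _ ⟨x, hx, rfl⟩
    exact hWeval x hx.1 hx.2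
  have hc : W.coeff k = (((Polynomial.Chebyshev.T ℝ n).coeff k : ℝ) : ℂ) *
      (mom u₁ n k - mom u₂ n k) := by
    rw [hW, Polynomial.finsetSum_coeff]
    simp only [Polynomial.coeff_monomial]
    rw [Finset.sum_ite_eq' (Polynomial.Chebyshev.T ℝ n).support k, if_pos]
    exact Polynomial.mem_support_iff.mpr hk
  rw [hW0, Polynomial.coeff_zero] at hc
  have h3 : (((Polynomial.Chebyshev.T ℝ n).coeff k : ℝ) : ℂ) ≠ 0 := by exact_mod_cast hk
  have h4 := (mul_eq_zero.mp hc.symm).resolve_left h3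
  exact sub_eq_zero.mp h4

/-- a continuous periodic function with finitely many nonzero coefficients -/
lemma fourier_finite {f : ℝ → ℂ} (hf : Continuous f) (hper : ∀ θ, f (θ + 2 * π) = f θ)
    (S : Finset ℤ) (h0 : ∀ n, n ∉ S → ∫ θ in (0 : ℝ)..(2 * π), ee n θ * f θ = 0) :
    ∃ c : ℤ → ℂ, ∀ θ, f θ = ∑ n ∈ S, c n * ee (-n) θ := by
  have hT : Fact (0 < 2 * π) := ⟨by linarith [Real.pi_pos]⟩
  have hp : Function.Periodic f (2 * π) := hper
  set fl : C(AddCircle (2 * π), ℂ) := ⟨hp.lift, hf.quotient_liftOn' _⟩ with hfl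
  have hflc : ∀ x : ℝ, fl (x : AddCircle (2 * π)) = f x := fun x => hp.lift_coe x
  have hfe : ∀ (n : ℤ) (x : ℝ), (fourier n (x : AddCircle (2 * π)) : ℂ) = ee n x := by
    intro n x
    rw [fourier_coe_apply]
    unfold ee
    congr 1
    have : (π : ℂ) ≠ 0 := by exact_mod_cast Real.pi_pos.ne'
    push_cast
    field_simp
  have hcoef : ∀ n : ℤ, fourierCoeff fl n = (1 / (2 * π)) • ∫ θ in (0 : ℝ)..(2 * π), ee (-n) θ * f θ := by
    intro n
    rw [fourierCoeff_eq_intervalIntegral _ n 0, zero_add]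
    congr 1
    apply intervalIntegral.integral_congr
    intro x _
    show (fourier (-n) (x : AddCircle (2 * π)) : ℂ) • fl (x : AddCircle (2 * π)) = _
    rw [hfe, hflc, smul_eq_mul]
  have hz : ∀ n : ℤ, n ∉ S.image (fun m => -m) → fourierCoeff fl n = 0 := by
    intro n hn
    rw [hcoef, h0, smul_zero]
    intro hc
    apply hn
    rw [Finset.mem_image]
    exact ⟨-n, hc, by ring⟩
  have hsum : Summable (fourierCoeff fl) := summable_of_ne_finset_zero (s := S.image (fun m => -m))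
    (fun n hn => hz n hn)
  refine ⟨fun n => fourierCoeff fl (-n), fun θ => ?_⟩
  have h1 := has_pointwise_sum_fourier_series_of_summable hsum (θ : AddCircle (2 * π))
  have h2 : HasSum (fun i => fourierCoeff fl i • (fourier i (θ : AddCircle (2 * π)) : ℂ))
      (∑ i ∈ S.image (fun m => -m), fourierCoeff fl i • (fourier i (θ : AddCircle (2 * π)) : ℂ)) :=
    hasSum_sum_of_ne_finset_zero (fun n hn => by rw [hz n hn, zero_smul])
  have h3 := h1.unique h2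
  rw [hflc] at h3
  rw [h3, Finset.sum_image (by intro a _ b _ hab; simpa using hab)]
  apply Finset.sum_congr rfl
  intro n _
  rw [hfe, smul_eq_mul]

end Pool.Agent.Helper264.Str
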