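import Pool.Agent.Helper264.StrEllipse

set_option autoImplicit false
open MeasureTheory MeasureTheory.Measure Set Real Filter
open scoped ENNReal NNReal Topology

namespace Pool.Agent.Helper264.Str

lemma convex_halfplane (θ c : ℝ) : Convex ℝ {y : V | L y θ ≤ c} :=
  convex_halfSpace_le ⟨fun x y => L_add x y θ, fun a x => L_smul a x θ⟩ c

lemma isSupp_hull {K : Set V} {h : ℝ → ℝ} (hs : IsSupp K h) (x : V) :
    IsSupp (convexHull ℝ (insert x K)) (fun θ => max (h θ) (L x θ)) := by
  intro θ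
  constructor
  · rcases le_total (h θ) (L x θ) with h1 | h1
    · refine ⟨x, subset_convexHull ℝ _ (mem_insert _ _), ?_⟩
      show L x θ = max (h θ) (L x θ)
      rw [max_eq_right h1]
    · obtain ⟨y, hy, hyθ⟩ := (hs θ).1
      refine ⟨y, subset_convexHull ℝ _ (mem_insert_of_mem _ hy), ?_⟩
      show L y θ = max (h θ) (L x θ)
      rw [max_eq_left h1, hyθ]
  · intro y hy
    have : convexHull ℝ (insert x K) ⊆ {y : V | L y θ ≤ max (h θ) (L x θ)} := by
      apply convexHull_min _ (convex_halfplane _ _)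
      intro w hw
      show L w θ ≤ max (h θ) (L x θ)
      rcases hw with hw | hw
      · rw [hw]; exact le_max_right _ _
      · exact ((hs θ).2 w hw).trans (le_max_left _ _)
    exact this hy

lemma isCompact_hull {K : Set V} (hK : IsCompact K) (hcv : Convex ℝ K) (hne : K.Nonempty) (x : V) :
    IsCompact (convexHull ℝ (insert x K)) := by
  have h1 : convexHull ℝ (insert x K)
      = (fun p : ℝ × V => (1 - p.1) • x + p.1 • p.2) '' (Icc (0 : ℝ) 1 ×ˢ K) := by
    rw [convexHull_insert hne, hcv.convexHull_eq]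
    ext y
    rw [mem_convexJoin]
    constructor
    · rintro ⟨a, ha, b, hb, hy⟩
      rw [mem_singleton_iff] at ha
      subst ha
      rw [segment_eq_image] at hy
      obtain ⟨t, ht, rfl⟩ := hy
      exact ⟨(t, b), ⟨ht, hb⟩, rfl⟩
    · rintro ⟨⟨t, b⟩, ⟨ht, hb⟩, rfl⟩
      refine ⟨x, rfl, b, hb, ?_⟩
      rw [segment_eq_image]
      exact ⟨t, ht, rfl⟩
  rw [h1]
  exact (isCompact_Icc.prod hK).image (by fun_prop)

lemma per_body {K : Set V} (hK : IsCompact K) (hcv : Convex ℝ K) (hint : (interior K).Nonempty)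
    {h : ℝ → ℝ} (hs : IsSupp K h) :
    (μH[1] (frontier K)).toReal = ∫ θ in (0 : ℝ)..(2 * π), h θ := by
  obtain ⟨h1, h2⟩ := cauchy_general hK hcv hint hs
  rw [h1, ENNReal.toReal_ofReal h2]

lemma per_hull {K : Set V} (hK : IsCompact K) (hcv : Convex ℝ K) (hint : (interior K).Nonempty)
    {h : ℝ → ℝ} (hs : IsSupp K h) (x : V) :
    (μH[1] (frontier (convexHull ℝ (insert x K)))).toReal = F h x := by
  have hne : K.Nonempty := hint.mono interior_subset
  have hint' : (interior (convexHull ℝ (insert x K))).Nonempty := by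
    apply hint.mono
    apply interior_mono
    exact (subset_insert _ _).trans (subset_convexHull ℝ _)
  exact per_body (isCompact_hull hK hcv hne x) (convex_convexHull ℝ _) hint' (isSupp_hull hs x)

lemma F_cont {h : ℝ → ℝ} (hc : Continuous h) : Continuous (F h) := by
  unfold F
  apply intervalIntegral.continuous_parametric_intervalIntegral_of_continuous'
  exact (hc.comp continuous_snd).max continuous_L_prod

lemma F_conv {h : ℝ → ℝ} (hc : Continuous h) (x y : V) {a b : ℝ} (ha : 0 ≤ a) (hb : 0 ≤ b)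
    (hab : a + b = 1) : F h (a • x + b • y) ≤ a * F h x + b * F h y := by
  unfold F
  rw [← intervalIntegral.integral_const_mul, ← intervalIntegral.integral_const_mul,
    ← intervalIntegral.integral_add ((int_max hc x _ _).const_mul a)
      ((int_max hc y _ _).const_mul b)]
  apply intervalIntegral.integral_mono_on (by linarith [Real.pi_pos]) (int_max hc _ _ _)
    (((int_max hc x _ _).const_mul a).add ((int_max hc y _ _).const_mul b))
  intro θ _
  rw [L_add, L_smul, L_smul]
  apply max_le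
  · have h1 := le_max_left (h θ) (L x θ)
    have h2 := le_max_left (h θ) (L y θ)
    calc h θ = a * h θ + b * h θ := by rw [← add_mul, hab, one_mul]
      _ ≤ _ := add_le_add (mul_le_mul_of_nonneg_left h1 ha) (mul_le_mul_of_nonneg_left h2 hb)
  · have h1 := le_max_right (h θ) (L x θ)
    have h2 := le_max_right (h θ) (L y θ)
    exact add_le_add (mul_le_mul_of_nonneg_left h1 ha) (mul_le_mul_of_nonneg_left h2 hb)

lemma F_translate {h : ℝ → ℝ} (hc : Continuous h) (z x : V) :
    F h x = F (fun θ => h θ - L z θ) (x - z) := by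
  unfold F
  have h1 : ∀ θ, max (h θ - L z θ) (L (x - z) θ) = max (h θ) (L x θ) - L z θ := by
    intro θ
    rw [L_sub, max_sub_sub_right]
  simp only [h1]
  rw [intervalIntegral.integral_sub (int_max hc x _ _) ((continuous_L z).intervalIntegrable _ _),
    integral_L, sub_zero]

lemma F_shift {u : ℝ → ℝ} (S : SF u) (R φ : ℝ) :
    F u (R • nn φ) = ∫ τ in (-π)..π, max (u (φ + τ)) (R * Real.cos τ) := by
  unfold F
  rw [per_shift (f := fun θ => max (u θ) (L (R • nn φ) θ)) _ φ]
  · congr 1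
    funext τ
    show max (u (φ + τ)) (L (R • nn φ) (φ + τ)) = _
    rw [L_smul, L_nn, show φ + τ - φ = τ by ring]
  · intro θ
    rw [S.per, L_add_two_pi]

lemma F_coercive {u : ℝ → ℝ} (S : SF u) (Q : V) : 2 * ‖Q‖ ≤ F u Q := by
  have hpi := Real.pi_pos
  obtain ⟨φ, hφ⟩ := exists_polar Q
  set R := ‖Q‖ with hR
  have hR0 : 0 ≤ R := norm_nonneg _
  rw [hφ, F_shift S]
  have hc : Continuous (fun τ => max (u (φ + τ)) (R * Real.cos τ)) :=
    (S.cont.comp (by fun_prop)).max (by fun_prop)
  have h1 : ∫ τ in (-(π / 2))..(π / 2), max (u (φ + τ)) (R * Real.cos τ)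
      ≤ ∫ τ in (-π)..π, max (u (φ + τ)) (R * Real.cos τ) := by
    apply intervalIntegral.integral_mono_interval (by linarith) (by linarith) (by linarith)
    · apply Eventually.of_forall
      intro τ
      exact (S.pos _).le.trans (le_max_left _ _)
    · exact hc.intervalIntegrable _ _
  have h2 : ∫ τ in (-(π / 2))..(π / 2), R * Real.cos τ
      ≤ ∫ τ in (-(π / 2))..(π / 2), max (u (φ + τ)) (R * Real.cos τ) := by
    apply intervalIntegral.integral_mono_on (by linarith)
      (Continuous.intervalIntegrable (by fun_prop) _ _) (hc.intervalIntegrable _ _)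
    intro τ _
    exact le_max_right _ _
  have h3 : ∫ τ in (-(π / 2))..(π / 2), R * Real.cos τ = 2 * R := by
    rw [intervalIntegral.integral_const_mul, integral_cos, Real.sin_neg, Real.sin_pi_div_two]
    ring
  linarith

lemma F_zero {u : ℝ → ℝ} (S : SF u) : F u 0 = ∫ θ in (0 : ℝ)..(2 * π), u θ := by
  unfold F
  congr 1
  funext θ
  rw [L_zero, max_eq_left (S.pos θ).le]

lemma F_zero_lt {u : ℝ → ℝ} (S : SF u) {R φ : ℝ} (hR : u φ < R) : F u 0 < F u (R • nn φ) := by
  have hpi := Real.pi_pos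
  have e0 := F_shift S 0 φ
  rw [zero_smul] at e0
  rw [e0, F_shift S]
  simp only [zero_mul]
  apply intervalIntegral.integral_lt_integral_of_continuousOn_of_le_of_exists_lt (by linarith)
  · exact ((S.cont.comp (by fun_prop)).max (by fun_prop)).continuousOn
  · exact ((S.cont.comp (by fun_prop)).max (by fun_prop)).continuousOn
  · intro τ _
    rw [max_eq_left (S.pos _).le]
    exact le_max_left _ _
  · refine ⟨0, ⟨by linarith, by linarith⟩, ?_⟩
    rw [max_eq_left (S.pos _).le, add_zero, Real.cos_zero, mul_one]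
    exact lt_max_of_lt_right hR

/-- equal level sets give ordered sublevel sets -/
lemma level {u₁ u₂ : ℝ → ℝ} (c₁ : Continuous u₁) (c₂ : Continuous u₂) {Q₀ : V}
    (h₁ : F u₁ 0 < F u₁ Q₀) (h₂ : F u₂ 0 < F u₂ Q₀)
    (hl : ∀ Q, F u₂ Q = F u₂ Q₀ ↔ F u₁ Q = F u₁ Q₀) :
    ∀ Q, F u₁ Q < F u₁ Q₀ → F u₂ Q < F u₂ Q₀ := by
  intro Q hQ
  by_contra hc
  push Not at hc
  have hcont : ContinuousOn (fun s : ℝ => F u₂ (s • Q)) (Icc 0 1) :=
    ((F_cont c₂).comp (by fun_prop)).continuousOn
  have hmem : F u₂ Q₀ ∈ Icc (F u₂ ((0 : ℝ) • Q)) (F u₂ ((1 : ℝ) • Q)) := by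
    rw [zero_smul, one_smul]
    exact ⟨h₂.le, hc⟩
  obtain ⟨s, hs, hsF⟩ := intermediate_value_Icc zero_le_one hcont hmem
  have h3 := (hl _).mp hsF
  have h4 := F_conv c₁ Q 0 hs.1 (sub_nonneg.mpr hs.2) (by ring)
  rw [smul_zero, add_zero, h3] at h4
  have h5 : s * F u₁ Q + (1 - s) * F u₁ 0 < F u₁ Q₀ := by
    rcases hs.1.eq_or_lt with h | h
    · rw [← h]; linarith
    · have h6 : s * F u₁ Q < s * F u₁ Q₀ := mul_lt_mul_of_pos_left hQ h
      have h7 : (1 - s) * F u₁ 0 ≤ (1 - s) * F u₁ Q₀ :=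
        mul_le_mul_of_nonneg_left h₁.le (sub_nonneg.mpr hs.2)
      nlinarith
  linarith

end Pool.Agent.Helper264.Str
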