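import Pool.Agent.Helper264.StrHull

set_option autoImplicit false
open MeasureTheory MeasureTheory.Measure Set Real Filter
open scoped ENNReal NNReal Topology

namespace Pool.Agent.Helper264.Str

/-- the main theorem in terms of the perimeter functional -/
theorem main_F {K : Set V} (hK : IsCompact K) (hcv : Convex ℝ K) (hint : (interior K).Nonempty)
    (hyp : ∀ ℓ1 : ℝ, (μH[1] (frontier K)).toReal < ℓ1 → ∀ ℓ2 : ℝ,
      (μH[1] (frontier {x : V | (μH[1] (frontier (convexHull ℝ (insert x K)))).toReal ≤ ℓ1})).toReal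
        < ℓ2 →
      ∃ ℓ3 : ℝ, {y : V | (μH[1] (frontier (convexHull ℝ (insert y
          {x : V | (μH[1] (frontier (convexHull ℝ (insert x K)))).toReal ≤ ℓ1})))).toReal = ℓ2}
        = {y : V | (μH[1] (frontier (convexHull ℝ (insert y K)))).toReal = ℓ3}) :
    ∃ f : V ≃ᵃ[ℝ] V, K = f '' Metric.closedBall 0 1 := by
  have hpi := Real.pi_pos
  obtain ⟨z, hz⟩ := hint
  have hint : (interior K).Nonempty := ⟨z, hz⟩
  have hzK : z ∈ K := interior_subset hz
  obtain ⟨h, hs⟩ := exists_isSupp hK ⟨z, hzK⟩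
  have hhc : Continuous h := hs.continuous hK
  have hE : ∀ x, (μH[1] (frontier (convexHull ℝ (insert x K)))).toReal = F h x :=
    per_hull hK hcv hint hs
  have hP := per_body hK hcv hint hs
  simp only [hE, hP] at hyp
  -- the translated support function
  obtain ⟨r₁, D₁, B₁⟩ := exists_body hK hcv hz hs
  have S₁ := B₁.sf
  -- choose the first string length
  set ℓ1 : ℝ := (∫ θ in (0 : ℝ)..(2 * π), h θ) + 1 with hℓ1
  have hyp1 := hyp ℓ1 (by linarith)
  set K2 : Set V := {x : V | F h x ≤ ℓ1} with hK2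
  have hFK : ∀ x ∈ K, F h x = ∫ θ in (0 : ℝ)..(2 * π), h θ := by
    intro x hx
    unfold F
    congr 1
    funext θ
    exact max_eq_left ((hs θ).2 x hx)
  have hFtr : ∀ x, F h x = F (fun θ => h θ - L z θ) (x - z) := F_translate hhc z
  have hK2cl : IsClosed K2 := isClosed_le (F_cont hhc) continuous_const
  have hK2c : IsCompact K2 := by
    apply Metric.isCompact_of_isClosed_isBounded hK2cl
    rw [isBounded_iff_forall_norm_le]
    refine ⟨ℓ1 / 2 + ‖z‖, fun x hx => ?_⟩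
    have h1 := F_coercive S₁ (x - z)
    rw [← hFtr] at h1
    have h2 : F h x ≤ ℓ1 := hx
    have h3 : ‖x‖ ≤ ‖x - z‖ + ‖z‖ := by
      calc ‖x‖ = ‖(x - z) + z‖ := by rw [sub_add_cancel]
        _ ≤ _ := norm_add_le _ _
    linarith
  have hK2v : Convex ℝ K2 := by
    intro x hx y hy a b ha hb hab
    have h1 := F_conv hhc x y ha hb hab
    have h2 : F h x ≤ ℓ1 := hx
    have h3 : F h y ≤ ℓ1 := hy
    show F h (a • x + b • y) ≤ ℓ1
    calc F h (a • x + b • y) ≤ a * F h x + b * F h y := h1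
      _ ≤ a * ℓ1 + b * ℓ1 := add_le_add (mul_le_mul_of_nonneg_left h2 ha)
        (mul_le_mul_of_nonneg_left h3 hb)
      _ = ℓ1 := by rw [← add_mul, hab, one_mul]
  have hopen : IsOpen {x : V | F h x < ℓ1} := isOpen_lt (F_cont hhc) continuous_const
  have hKint : ∀ x ∈ K, x ∈ interior K2 := by
    intro x hx
    rw [mem_interior]
    refine ⟨{x : V | F h x < ℓ1}, fun y hy => ?_, hopen, ?_⟩
    · have h1 : F h y < ℓ1 := hy
      show F h y ≤ ℓ1
      exact h1.le
    show F h x < ℓ1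
    rw [hFK x hx]; linarith
  have hz2 : z ∈ interior K2 := hKint z hzK
  have hint2 : (interior K2).Nonempty := ⟨z, hz2⟩
  obtain ⟨h2, hs2⟩ := exists_isSupp hK2c ⟨z, interior_subset hz2⟩
  have hh2c : Continuous h2 := hs2.continuous hK2c
  have hE2 : ∀ x, (μH[1] (frontier (convexHull ℝ (insert x K2)))).toReal = F h2 x :=
    per_hull hK2c hK2v hint2 hs2
  have hP2 := per_body hK2c hK2v hint2 hs2
  simp only [hE2, hP2] at hyp1
  obtain ⟨r₂, D₂, B₂⟩ := exists_body hK2c hK2v hz2 hs2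
  have S₂ := B₂.sf
  have hFtr2 : ∀ x, F h2 x = F (fun θ => h2 θ - L z θ) (x - z) := F_translate hh2c z
  set u₁ : ℝ → ℝ := fun θ => h θ - L z θ with hu₁
  set u₂ : ℝ → ℝ := fun θ => h2 θ - L z θ with hu₂
  have hlt : ∀ θ, u₁ θ < u₂ θ := by
    intro θ
    obtain ⟨x, hx, hxθ⟩ := (hs θ).1
    have h1 := hKint x hx
    have hcont : Continuous (fun t : ℝ => x + t • nn θ) := by fun_prop
    have hev : ∀ᶠ t in 𝓝 (0 : ℝ), x + t • nn θ ∈ interior K2 := by
      apply hcont.continuousAt.eventually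
      simpa using isOpen_interior.mem_nhds h1
    obtain ⟨ε, hε, hball⟩ := Metric.eventually_nhds_iff.mp hev
    have h3 := interior_subset (hball (y := ε / 2) (by
      rw [Real.dist_eq, sub_zero, abs_of_pos (by linarith)]; linarith))
    have h4 := (hs2 θ).2 _ h3
    rw [L_add, L_smul, L_nn_self, hxθ] at h4
    show h θ - L z θ < h2 θ - L z θ
    linarith
  have hD : ∀ θ, u₂ θ ≤ D₂ := B₂.supp.le_D B₂.bd
  have hD2 : 0 < D₂ := B₂.D_pos
  have hlev : ∀ R : ℝ, D₂ < R → ∀ φ Q, F u₁ Q < F u₁ (R • nn φ) → F u₂ Q < F u₂ (R • nn φ) := by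
    intro R hR φ
    have hR2 : u₂ φ < R := lt_of_le_of_lt (hD φ) hR
    have hR1 : u₁ φ < R := (hlt φ).trans hR2
    apply level S₁.cont S₂.cont (F_zero_lt S₁ hR1) (F_zero_lt S₂ hR2)
    -- the level set through the point
    have hFz : F u₂ 0 = ∫ θ in (0 : ℝ)..(2 * π), h2 θ := by
      have e1 := hFtr2 z
      rw [sub_self] at e1
      rw [← e1]
      unfold F
      congr 1
      funext θ
      exact max_eq_left ((hs2 θ).2 z (interior_subset hz2))
    obtain ⟨ℓ3, hℓ3⟩ := hyp1 (F h2 (z + R • nn φ)) (by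
      rw [← hFz, hFtr2 (z + R • nn φ), add_sub_cancel_left]
      exact F_zero_lt S₂ hR2)
    have hmem : z + R • nn φ ∈ {y : V | F h y = ℓ3} := by
      rw [← hℓ3]; rfl
    have hmem' : F h (z + R • nn φ) = ℓ3 := hmem
    intro Q
    have h5 := Set.ext_iff.mp hℓ3 (z + Q)
    simp only [mem_ofPred_eq] at h5
    rw [← hmem'] at h5
    rw [hFtr2 (z + Q), hFtr2 (z + R • nn φ), hFtr (z + Q), hFtr (z + R • nn φ),
      add_sub_cancel_left, add_sub_cancel_left] at h5
    exact h5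
  have hcheb : ∀ n : ℤ, n ≠ 0 → ∀ R : ℝ, D₂ < R →
      ∫ θ in (0 : ℝ)..(2 * π), ee n θ * (((Polynomial.Chebyshev.T ℝ n).eval (u₁ θ / R) : ℝ) : ℂ)
      = ∫ θ in (0 : ℝ)..(2 * π), ee n θ *
        (((Polynomial.Chebyshev.T ℝ n).eval (u₂ θ / R) : ℝ) : ℂ) := by
    intro n hn R hR
    exact cheb_eq S₁ S₂ (fun θ => (hlt θ).trans (lt_of_le_of_lt (hD θ) hR))
      (fun θ => lt_of_le_of_lt (hD θ) hR) (hlev R hR) n hn
  have hodd0 : ∀ n : ℤ, Odd n → n ≠ 0 := by
    intro n hn h0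
    rw [h0] at hn
    simp at hn
  obtain ⟨a, b, A, B, C, hfin⟩ := alg S₁ S₂ hlt
    (fun n hn => mom_eq S₁.cont S₂.cont hD2 n (hcheb n (hodd0 n hn)) 1 (coeff_one_ne n hn))
    (fun n hn h0 => mom_eq S₁.cont S₂.cont hD2 n (hcheb n h0) 2 (coeff_two_ne n hn h0))
    (fun n hn h1 h2 => mom_eq S₁.cont S₂.cont hD2 n (hcheb n (hodd0 n hn)) 3
      (coeff_three_ne n hn h1 h2))
    (fun n hn h0 h1 h2 => mom_eq S₁.cont S₂.cont hD2 n (hcheb n h0) 4
      (coeff_four_ne n hn h0 h1 h2))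
  have hLc : ∀ θ, h θ - L (z + !₂[a, b]) θ = u₁ θ - (a * Real.cos θ + b * Real.sin θ) := by
    intro θ
    rw [L_add, hu₁]
    have : L (!₂[a, b] : V) θ = a * Real.cos θ + b * Real.sin θ := by simp [L]
    rw [this]; ring
  apply ellipse_of_supp hK hcv hs (z + !₂[a, b]) (A := A) (B := B) (C := C)
  · intro θ
    rw [hLc]; exact (hfin θ).1
  · intro θ
    rw [hLc]; exact (hfin θ).2

end Pool.Agent.Helper264.Str
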