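import Pool.Agent.Helper264.StrSlice

set_option autoImplicit false
open MeasureTheory MeasureTheory.Measure Set Real Filter
open scoped ENNReal NNReal Topology

namespace Pool.Agent.Helper264.Str

/-- the character -/
noncomputable def ee (n : ℤ) (θ : ℝ) : ℂ := Complex.exp (n * Complex.I * θ)

lemma ee_add (n : ℤ) (a b : ℝ) : ee n (a + b) = ee n a * ee n b := by
  unfold ee; rw [← Complex.exp_add]; congr 1; push_cast; ring

lemma ee_norm (n : ℤ) (a : ℝ) : ‖ee n a‖ = 1 := by
  unfold ee
  rw [show (n : ℂ) * Complex.I * a = ((n * a : ℝ) : ℂ) * Complex.I by push_cast; ring]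
  exact Complex.norm_exp_ofReal_mul_I _

lemma ee_two_pi (n : ℤ) : ee n (2 * π) = 1 := by
  unfold ee
  rw [Complex.exp_eq_one_iff]
  exact ⟨n, by push_cast; ring⟩

lemma ee_per (n : ℤ) (a : ℝ) : ee n (a + 2 * π) = ee n a := by
  rw [ee_add, ee_two_pi, mul_one]

lemma ee_neg (n : ℤ) (a : ℝ) : ee n a * ee n (-a) = 1 := by
  rw [← ee_add, add_neg_cancel]; simp [ee]

lemma ee_cont (n : ℤ) : Continuous (ee n) := by
  unfold ee; fun_prop

lemma ee_cos (n : ℤ) (b : ℝ) : ee n b + ee n (-b) = 2 * ((Real.cos (n * b) : ℝ) : ℂ) := by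
  unfold ee
  rw [Complex.ofReal_cos, Complex.two_cos]
  congr 1
  · congr 1; push_cast; ring
  · congr 1; push_cast; ring

lemma integral_ee (n : ℤ) (hn : n ≠ 0) (a b : ℝ) :
    ∫ τ in a..b, ee n τ = (ee n b - ee n a) / (n * Complex.I) := by
  unfold ee
  have : (n : ℂ) * Complex.I ≠ 0 := mul_ne_zero (by exact_mod_cast hn) Complex.I_ne_zero
  rw [integral_exp_mul_complex this]

lemma swap_bdd {G : ℝ → ℝ → ℂ} (hm : Measurable (Function.uncurry G)) {C : ℝ}
    (hb : ∀ x y, ‖G x y‖ ≤ C) (a b c d : ℝ) :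
    ∫ x in a..b, ∫ y in c..d, G x y = ∫ y in c..d, ∫ x in a..b, G x y := by
  apply intervalIntegral_intervalIntegral_swap
  apply Measure.integrableOn_of_bounded (M := C)
  · rw [Measure.volume_eq_prod, Measure.prod_prod]
    simp only [Set.uIoc, Real.volume_Ioc]
    exact ENNReal.mul_ne_top ENNReal.ofReal_ne_top ENNReal.ofReal_ne_top
  · exact hm.aestronglyMeasurable
  · exact Eventually.of_forall fun p => hb p.1 p.2

lemma cper_shift {f : ℝ → ℂ} (hf : ∀ θ, f (θ + 2 * π) = f θ) (τ : ℝ) :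
    ∫ φ in (0 : ℝ)..(2 * π), f (φ + τ) = ∫ θ in (0 : ℝ)..(2 * π), f θ := by
  have h1 : Function.Periodic f (2 * π) := hf
  have h2 := h1.intervalIntegral_add_eq 0 τ
  rw [zero_add] at h2
  rw [h2, intervalIntegral.integral_comp_add_right]
  congr 1 <;> ring

/-- inner integral for a fixed direction -/
lemma inner_arc (n : ℤ) (hn : n ≠ 0) {c R : ℝ} (hc : 0 < c) (hcR : c < R) :
    ∫ τ in (0 : ℝ)..(π / 2), (if c < R * Real.cos τ then ee n τ else 0)
      = (ee n (Real.arccos (c / R)) - 1) / (n * Complex.I) := by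
  have hpi := Real.pi_pos
  have hR : 0 < R := hc.trans hcR
  set B := Real.arccos (c / R) with hB
  have hq0 : 0 < c / R := div_pos hc hR
  have hq1 : c / R < 1 := (div_lt_one hR).mpr hcR
  have hcosB : Real.cos B = c / R := Real.cos_arccos (by linarith) hq1.le
  have hB0 : 0 ≤ B := Real.arccos_nonneg _
  have hB2 : B < π / 2 := Real.arccos_lt_pi_div_two.mpr hq0
  have hlow : ∀ τ, 0 ≤ τ → τ < B → c < R * Real.cos τ := by
    intro τ h0 h1
    have := Real.cos_lt_cos_of_nonneg_of_le_pi h0 (by linarith) h1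
    rw [hcosB, div_lt_iff₀ hR] at this
    linarith
  have hhigh : ∀ τ, B ≤ τ → τ ≤ π → R * Real.cos τ ≤ c := by
    intro τ h0 h1
    have := Real.cos_le_cos_of_nonneg_of_le_pi hB0 h1 h0
    rw [hcosB, le_div_iff₀ hR] at this
    linarith
  have e1 : ∀ᵐ τ : ℝ, τ ∈ Set.uIoc 0 B → (if c < R * Real.cos τ then ee n τ else 0) = ee n τ := by
    have : ∀ᵐ τ : ℝ, τ ≠ B := by
      rw [ae_iff]; simp
    filter_upwards [this] with τ hτ hmem
    rw [Set.uIoc_of_le hB0] at hmem
    rw [if_pos (hlow τ hmem.1.le (lt_of_le_of_ne hmem.2 hτ))]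
  have e2 : ∀ τ : ℝ, τ ∈ Set.uIoc B (π / 2) → (if c < R * Real.cos τ then ee n τ else 0) = 0 := by
    intro τ hmem
    rw [Set.uIoc_of_le hB2.le] at hmem
    rw [if_neg (not_lt.mpr (hhigh τ hmem.1.le (by linarith [hmem.2])))]
  have i1 : IntervalIntegrable (fun τ => if c < R * Real.cos τ then ee n τ else 0) volume 0 B := by
    have := (ee_cont n).intervalIntegrable (μ := volume) 0 B
    refine this.congr_ae ?_
    rw [EventuallyEq, ae_restrict_iff' measurableSet_uIoc]
    filter_upwards [e1] with τ hτ hm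
    exact (hτ hm).symm
  have i2 : IntervalIntegrable (fun τ => if c < R * Real.cos τ then ee n τ else 0)
      volume B (π / 2) := by
    have : IntervalIntegrable (fun _ : ℝ => (0 : ℂ)) volume B (π / 2) := by simp
    refine this.congr ?_
    intro τ hτ
    exact (e2 τ hτ).symm
  rw [← intervalIntegral.integral_add_adjacent_intervals i1 i2,
    intervalIntegral.integral_congr_ae e1, integral_ee n hn]
  have : ∫ τ in B..(π / 2), (if c < R * Real.cos τ then ee n τ else 0)
      = ∫ τ in B..(π / 2), (0 : ℂ) :=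
    intervalIntegral.integral_congr_ae (Eventually.of_forall fun τ hτ => e2 τ hτ)
  rw [this]; simp [ee]

lemma ofReal_bp (u : ℝ → ℝ) (R φ : ℝ) :
    ((bp u R φ : ℝ) : ℂ) = ∫ τ in (0 : ℝ)..(π / 2), (if u (φ + τ) < R * Real.cos τ then (1 : ℂ) else 0) := by
  unfold bp
  rw [← intervalIntegral.integral_ofReal]
  congr 1
  funext τ
  split_ifs <;> simp

lemma moment_bp {u : ℝ → ℝ} (S : SF u) {R : ℝ} (hR : ∀ θ, u θ < R) (n : ℤ) (hn : n ≠ 0) :
    ∫ φ in (0 : ℝ)..(2 * π), ee n φ * ((bp u R φ : ℝ) : ℂ)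
      = ∫ θ in (0 : ℝ)..(2 * π), ee n θ *
        ((ee (-n) (Real.arccos (u θ / R)) - 1) / (((-n : ℤ) : ℂ) * Complex.I)) := by
  have h1 : ∀ φ, ee n φ * ((bp u R φ : ℝ) : ℂ)
      = ∫ τ in (0 : ℝ)..(π / 2), (if u (φ + τ) < R * Real.cos τ then ee n φ else 0) := by
    intro φ
    rw [ofReal_bp, ← intervalIntegral.integral_const_mul]
    congr 1
    funext τ
    split_ifs <;> simp
  simp only [h1]
  rw [swap_bdd (G := fun φ τ => if u (φ + τ) < R * Real.cos τ then ee n φ else 0) (C := 1)]
  · -- inner shift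
    have h2 : ∀ τ, ∫ φ in (0 : ℝ)..(2 * π), (if u (φ + τ) < R * Real.cos τ then ee n φ else 0)
        = ∫ θ in (0 : ℝ)..(2 * π), (if u θ < R * Real.cos τ then ee n θ * ee (-n) τ else 0) := by
      intro τ
      rw [← cper_shift (f := fun θ => if u θ < R * Real.cos τ then ee n θ * ee (-n) τ else 0) _ τ]
      · congr 1
        funext φ
        have : ee n (φ + τ) * ee (-n) τ = ee n φ := by
          have h3 : ee (-n) τ = ee n (-τ) := by
            unfold ee; congr 1; push_cast; ring
          rw [ee_add, h3, mul_assoc, ee_neg, mul_one]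
        show _ = if u (φ + τ) < R * Real.cos τ then ee n (φ + τ) * ee (-n) τ else 0
        rw [this]
      · intro θ
        rw [S.per, ee_per]
    simp only [h2]
    rw [← swap_bdd (G := fun θ τ => if u θ < R * Real.cos τ then ee n θ * ee (-n) τ else 0) (C := 1)]
    · congr 1
      funext θ
      have h3 : ∀ τ, (if u θ < R * Real.cos τ then ee n θ * ee (-n) τ else 0)
          = ee n θ * (if u θ < R * Real.cos τ then ee (-n) τ else 0) := by
        intro τ; split_ifs <;> simp
      simp only [h3]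
      rw [intervalIntegral.integral_const_mul, inner_arc (-n) (by simpa using hn) (S.pos θ) (hR θ)]
    · have hs : MeasurableSet {p : ℝ × ℝ | u p.1 < R * Real.cos p.2} :=
        (isOpen_lt (S.cont.comp continuous_fst) (by fun_prop)).measurableSet
      have hf : Measurable (fun p : ℝ × ℝ => ee n p.1 * ee (-n) p.2) :=
        (((ee_cont n).comp continuous_fst).mul ((ee_cont (-n)).comp continuous_snd)).measurable
      exact Measurable.ite hs hf measurable_const
    · intro x y
      split_ifs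
      · rw [norm_mul, ee_norm, ee_norm]; norm_num
      · simp
  · have hs : MeasurableSet {p : ℝ × ℝ | u (p.1 + p.2) < R * Real.cos p.2} :=
      (isOpen_lt (S.cont.comp (continuous_fst.add continuous_snd)) (by fun_prop)).measurableSet
    have hf : Measurable (fun p : ℝ × ℝ => ee n p.1) :=
      ((ee_cont n).comp continuous_fst).measurable
    exact Measurable.ite hs hf measurable_const
  · intro x y
    split_ifs
    · rw [ee_norm]
    · simp

lemma moment_bm {u : ℝ → ℝ} (S : SF u) {R : ℝ} (hR : ∀ θ, u θ < R) (n : ℤ) (hn : n ≠ 0) :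
    ∫ φ in (0 : ℝ)..(2 * π), ee n φ * ((bm u R φ : ℝ) : ℂ)
      = ∫ θ in (0 : ℝ)..(2 * π), ee n θ *
        ((ee n (Real.arccos (u θ / R)) - 1) / ((n : ℂ) * Complex.I)) := by
  have hrefl := moment_bp S.refl (R := R) (fun θ => hR _) (-n) (by simpa using hn)
  simp only [neg_neg] at hrefl
  have key : ∀ f : ℝ → ℂ, (∀ θ, f (θ + 2 * π) = f θ) →
      ∫ φ in (0 : ℝ)..(2 * π), f (-φ) = ∫ φ in (0 : ℝ)..(2 * π), f φ := by
    intro f hf
    rw [intervalIntegral.integral_comp_neg]
    have h1 : Function.Periodic f (2 * π) := hf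
    have h2 := h1.intervalIntegral_add_eq (-(2 * π)) 0
    rw [zero_add, neg_add_cancel] at h2
    rw [neg_zero, h2]
  have hen : ∀ φ, ee (-n) φ = ee n (-φ) := by
    intro φ; unfold ee; congr 1; push_cast; ring
  have hbmper : ∀ φ, bm u R (φ + 2 * π) = bm u R φ := by
    intro φ
    unfold bm
    congr 1
    funext τ
    rw [show φ + 2 * π - τ = (φ - τ) + 2 * π by ring, S.per]
  have e1 : ∫ φ in (0 : ℝ)..(2 * π), ee n φ * ((bm u R φ : ℝ) : ℂ)
      = ∫ φ in (0 : ℝ)..(2 * π), ee (-n) φ * ((bp (fun θ => u (-θ)) R φ : ℝ) : ℂ) := by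
    rw [← key (fun φ => ee n φ * ((bm u R φ : ℝ) : ℂ))]
    · congr 1
      funext φ
      rw [hen, bm_eq_bp, neg_neg]
    · intro θ
      rw [ee_per, hbmper]
  rw [e1, hrefl]
  rw [← key (fun θ => ee n θ * ((ee n (Real.arccos (u θ / R)) - 1) / ((n : ℂ) * Complex.I)))]
  · congr 1
    funext θ
    rw [hen]
  · intro θ
    rw [ee_per, S.per]

lemma bp_integrable {u : ℝ → ℝ} (S : SF u) {R : ℝ} (n : ℤ) :
    IntervalIntegrable (fun φ => ee n φ * ((bp u R φ : ℝ) : ℂ)) volume 0 (2 * π) := by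
  have hmeas : Measurable (fun φ => bp u R φ) := by
    unfold bp
    have hs : MeasurableSet {p : ℝ × ℝ | u (p.1 + p.2) < R * Real.cos p.2} :=
      (isOpen_lt (S.cont.comp (continuous_fst.add continuous_snd)) (by fun_prop)).measurableSet
    have hf : Measurable (fun p : ℝ × ℝ => if u (p.1 + p.2) < R * Real.cos p.2 then (1 : ℝ) else 0) :=
      Measurable.ite hs measurable_const measurable_const
    have h2 := hf.stronglyMeasurable
    simp only [intervalIntegral.integral_of_le (show (0 : ℝ) ≤ π / 2 by linarith [Real.pi_pos])]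
    exact (StronglyMeasurable.integral_prod_right' (ν := volume.restrict (Ioc 0 (π / 2))) h2).measurable
  rw [intervalIntegrable_iff]
  apply Measure.integrableOn_of_bounded (M := π / 2)
  · simp [Set.uIoc]
  · exact ((ee_cont n).measurable.mul (Complex.measurable_ofReal.comp hmeas)).aestronglyMeasurable
  · apply Eventually.of_forall
    intro φ
    rw [norm_mul, ee_norm, one_mul, Complex.norm_real]
    unfold bp
    have := intervalIntegral.norm_integral_le_of_norm_le_const (a := 0) (b := π / 2) (C := 1)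
      (f := fun τ => if u (φ + τ) < R * Real.cos τ then (1 : ℝ) else 0) (by
        intro τ _
        split_ifs <;> simp)
    rw [one_mul, sub_zero, abs_of_pos (by linarith [Real.pi_pos])] at this
    exact this

lemma bm_integrable {u : ℝ → ℝ} (S : SF u) {R : ℝ} (n : ℤ) :
    IntervalIntegrable (fun φ => ee n φ * ((bm u R φ : ℝ) : ℂ)) volume 0 (2 * π) := by
  have hmeas : Measurable (fun φ => bm u R φ) := by
    unfold bm
    have hs : MeasurableSet {p : ℝ × ℝ | u (p.1 - p.2) < R * Real.cos p.2} :=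
      (isOpen_lt (S.cont.comp (continuous_fst.sub continuous_snd)) (by fun_prop)).measurableSet
    have hf : Measurable (fun p : ℝ × ℝ => if u (p.1 - p.2) < R * Real.cos p.2 then (1 : ℝ) else 0) :=
      Measurable.ite hs measurable_const measurable_const
    have h2 := hf.stronglyMeasurable
    simp only [intervalIntegral.integral_of_le (show (0 : ℝ) ≤ π / 2 by linarith [Real.pi_pos])]
    exact (StronglyMeasurable.integral_prod_right' (ν := volume.restrict (Ioc 0 (π / 2))) h2).measurable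
  rw [intervalIntegrable_iff]
  apply Measure.integrableOn_of_bounded (M := π / 2)
  · simp [Set.uIoc]
  · exact ((ee_cont n).measurable.mul (Complex.measurable_ofReal.comp hmeas)).aestronglyMeasurable
  · apply Eventually.of_forall
    intro φ
    rw [norm_mul, ee_norm, one_mul, Complex.norm_real]
    unfold bm
    have := intervalIntegral.norm_integral_le_of_norm_le_const (a := 0) (b := π / 2) (C := 1)
      (f := fun τ => if u (φ - τ) < R * Real.cos τ then (1 : ℝ) else 0) (by
        intro τ _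
        split_ifs <;> simp)
    rw [one_mul, sub_zero, abs_of_pos (by linarith [Real.pi_pos])] at this
    exact this

/-- the moment identity -/
theorem moment {u : ℝ → ℝ} (S : SF u) {R : ℝ} (hR : ∀ θ, u θ < R) (n : ℤ) (hn : n ≠ 0) :
    ∫ φ in (0 : ℝ)..(2 * π), ee n φ * (((bp u R φ - bm u R φ) : ℝ) : ℂ)
      = (2 / ((n : ℂ) * Complex.I)) * ((∫ θ in (0 : ℝ)..(2 * π), ee n θ) -
        ∫ θ in (0 : ℝ)..(2 * π), ee n θ *
          (((Polynomial.Chebyshev.T ℝ n).eval (u θ / R) : ℝ) : ℂ)) := by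
  have h1 : ∀ φ, ee n φ * (((bp u R φ - bm u R φ) : ℝ) : ℂ)
      = ee n φ * ((bp u R φ : ℝ) : ℂ) - ee n φ * ((bm u R φ : ℝ) : ℂ) := by
    intro φ; push_cast; ring
  simp only [h1]
  rw [intervalIntegral.integral_sub (bp_integrable S n) (bm_integrable S n),
    moment_bp S hR n hn, moment_bm S hR n hn]
  have hq : ∀ θ, 0 < u θ / R ∧ u θ / R < 1 := by
    intro θ
    have hRp : 0 < R := (S.pos θ).trans (hR θ)
    exact ⟨div_pos (S.pos θ) hRp, (div_lt_one hRp).mpr (hR θ)⟩
  have hacont : Continuous (fun θ => Real.arccos (u θ / R)) :=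
    Real.continuous_arccos.comp (S.cont.div_const R)
  have hTcont : Continuous (fun θ => (((Polynomial.Chebyshev.T ℝ n).eval (u θ / R) : ℝ) : ℂ)) :=
    Complex.continuous_ofReal.comp ((Polynomial.continuous _).comp (S.cont.div_const R))
  have hTe : ∀ θ, (((Polynomial.Chebyshev.T ℝ n).eval (u θ / R) : ℝ) : ℂ)
      = ((Real.cos (n * Real.arccos (u θ / R)) : ℝ) : ℂ) := by
    intro θ
    have hc : Real.cos (Real.arccos (u θ / R)) = u θ / R :=
      Real.cos_arccos (by linarith [(hq θ).1]) (hq θ).2.le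
    rw [← Polynomial.Chebyshev.T_real_cos, hc]
  have hnI : (n : ℂ) * Complex.I ≠ 0 := mul_ne_zero (by exact_mod_cast hn) Complex.I_ne_zero
  rw [← intervalIntegral.integral_sub, ← intervalIntegral.integral_sub,
    ← intervalIntegral.integral_const_mul]
  · congr 1
    funext θ
    rw [hTe]
    have h2 := ee_cos n (Real.arccos (u θ / R))
    have h3 : ee (-n) (Real.arccos (u θ / R)) = ee n (-Real.arccos (u θ / R)) := by
      unfold ee; congr 1; push_cast; ring
    rw [h3]
    have h4 : ee n (-Real.arccos (u θ / R)) = 2 * ((Real.cos (n * Real.arccos (u θ / R)) : ℝ) : ℂ)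
      - ee n (Real.arccos (u θ / R)) := by rw [← h2]; ring
    rw [h4]
    push_cast
    field_simp
    ring
  · exact (ee_cont n).intervalIntegrable _ _
  · exact ((ee_cont n).mul hTcont).intervalIntegrable _ _
  · apply Continuous.intervalIntegrable
    exact (ee_cont n).mul ((((ee_cont (-n)).comp hacont).sub continuous_const).div_const _)
  · apply Continuous.intervalIntegrable
    exact (ee_cont n).mul ((((ee_cont n).comp hacont).sub continuous_const).div_const _)

/-- equality of Chebyshev moments -/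
theorem cheb_eq {u₁ u₂ : ℝ → ℝ} (S₁ : SF u₁) (S₂ : SF u₂) {R : ℝ} (h₁ : ∀ θ, u₁ θ < R)
    (h₂ : ∀ θ, u₂ θ < R)
    (hlev : ∀ φ Q, F u₁ Q < F u₁ (R • nn φ) → F u₂ Q < F u₂ (R • nn φ)) (n : ℤ) (hn : n ≠ 0) :
    ∫ θ in (0 : ℝ)..(2 * π), ee n θ * (((Polynomial.Chebyshev.T ℝ n).eval (u₁ θ / R) : ℝ) : ℂ)
    = ∫ θ in (0 : ℝ)..(2 * π), ee n θ * (((Polynomial.Chebyshev.T ℝ n).eval (u₂ θ / R) : ℝ) : ℂ) := by
  have e1 := moment S₁ h₁ n hn
  have e2 := moment S₂ h₂ n hn
  have e3 : ∀ φ, bp u₁ R φ - bm u₁ R φ = bp u₂ R φ - bm u₂ R φ := fun φ =>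
    bisector S₁ S₂ (h₁ φ) (h₂ φ) (hlev φ)
  simp only [e3] at e1
  rw [e1] at e2
  have hnI : 2 / ((n : ℂ) * Complex.I) ≠ 0 :=
    div_ne_zero two_ne_zero (mul_ne_zero (by exact_mod_cast hn) Complex.I_ne_zero)
  have e4 := mul_left_cancel₀ hnI e2
  exact sub_right_injective e4

end Pool.Agent.Helper264.Str
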