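import Pool.Agent.Helper264.StrBasic

set_option autoImplicit false
open MeasureTheory MeasureTheory.Measure Set Real
open scoped ENNReal NNReal Topology

namespace Pool.Agent.Helper264.Str

lemma decomp (x : V) (θ : ℝ) : x = L x θ • nn θ + L x (θ + π / 2) • nn (θ + π / 2) := by
  have h1 := Real.sin_sq_add_cos_sq θ
  ext i
  fin_cases i
  · simp [L, Real.cos_add_pi_div_two, Real.sin_add_pi_div_two]
    linear_combination (-(x 0)) * h1
  · simp [L, Real.cos_add_pi_div_two, Real.sin_add_pi_div_two]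
    linear_combination (-(x 1)) * h1

lemma eq_of_L {x y : V} {α β : ℝ} (hs : Real.sin (β - α) ≠ 0) (h1 : L x α = L y α)
    (h2 : L x β = L y β) : x = y := by
  have e1 : (x 0 - y 0) * Real.cos α + (x 1 - y 1) * Real.sin α = 0 := by
    unfold L at h1; linarith
  have e2 : (x 0 - y 0) * Real.cos β + (x 1 - y 1) * Real.sin β = 0 := by
    unfold L at h2; linarith
  rw [Real.sin_sub] at hs
  have f0 : (x 0 - y 0) * (Real.sin β * Real.cos α - Real.cos β * Real.sin α) = 0 := by
    linear_combination Real.sin β * e1 - Real.sin α * e2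
  have f1 : (x 1 - y 1) * (Real.sin β * Real.cos α - Real.cos β * Real.sin α) = 0 := by
    linear_combination Real.cos α * e2 - Real.cos β * e1
  ext i
  fin_cases i
  · simpa [sub_eq_zero, hs] using f0
  · simpa [sub_eq_zero, hs] using f1

/-- point on the line `L · θ = c` with coordinate `s` -/
noncomputable def linePt (θ c s : ℝ) : V := c • nn θ + s • nn (θ + π / 2)

lemma L_linePt (θ c s φ : ℝ) :
    L (linePt θ c s) φ = c * Real.cos (φ - θ) + s * Real.sin (φ - θ) := by
  unfold linePt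
  rw [L_add, L_smul, L_smul, L_nn, L_nn]
  rw [show φ - (θ + π / 2) = (φ - θ) - π / 2 by ring, Real.cos_sub_pi_div_two]

lemma eq_linePt (x : V) (θ : ℝ) : x = linePt θ (L x θ) (L x (θ + π / 2)) := decomp x θ

lemma isometry_linePt (θ c : ℝ) : Isometry (linePt θ c) := by
  apply Isometry.of_dist_eq
  intro s t
  have : linePt θ c s - linePt θ c t = (s - t) • nn (θ + π / 2) := by
    unfold linePt; rw [sub_smul]; abel
  rw [dist_eq_norm, this, norm_smul, norm_nn, mul_one, Real.dist_eq, Real.norm_eq_abs]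

/-- the polygon -/
def Poly (δ : ℝ) (h : ℤ → ℝ) : Set V := {x | ∀ k : ℤ, L x (k * δ) ≤ h k}

/-- an edge of the polygon -/
def Edge (δ : ℝ) (h : ℤ → ℝ) (k : ℤ) : Set V := {x | x ∈ Poly δ h ∧ L x (k * δ) = h k}

/-- data for the polygon -/
structure Data (N : ℕ) (δ : ℝ) (h : ℤ → ℝ) (X : ℤ → V) : Prop where
  hN : 3 ≤ N
  hδ : (N : ℝ) * δ = 2 * π
  per : ∀ k, h (k + N) = h k
  eqX : ∀ k : ℤ, L (X k) (k * δ) = h k
  leX : ∀ k j : ℤ, L (X k) (j * δ) ≤ h j
  pos : ∀ k, 0 < h k

namespace Data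
variable {N : ℕ} {δ : ℝ} {h : ℤ → ℝ} {X : ℤ → V}

lemma NR (D : Data N δ h X) : (3 : ℝ) ≤ N := by exact_mod_cast D.hN

lemma δpos (D : Data N δ h X) : 0 < δ := by
  have h1 := D.NR
  have h2 := D.hδ
  have h3 := Real.pi_pos
  by_contra hc
  push Not at hc
  nlinarith

lemma δlt (D : Data N δ h X) : 3 * δ ≤ 2 * π := by
  have h1 := D.NR
  have h2 := D.hδ
  have h3 := D.δpos
  nlinarith

lemma δlt' (D : Data N δ h X) : δ < π := by
  have h1 := D.δlt
  have h3 := Real.pi_pos
  linarith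

lemma sinpos (D : Data N δ h X) : 0 < Real.sin δ :=
  Real.sin_pos_of_pos_of_lt_pi D.δpos D.δlt'

lemma sin_per (D : Data N δ h X) (m q : ℤ) : Real.sin ((m + q * N : ℤ) * δ) = Real.sin (m * δ) := by
  have h2 := D.hδ
  have : ((m + q * N : ℤ) : ℝ) * δ = m * δ + q * (2 * π) := by
    push_cast; linear_combination (q : ℝ) * h2
  rw [this, Real.sin_add_int_mul_two_pi]

lemma cos_per (D : Data N δ h X) (m q : ℤ) : Real.cos ((m + q * N : ℤ) * δ) = Real.cos (m * δ) := by
  have h2 := D.hδ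
  have : ((m + q * N : ℤ) : ℝ) * δ = m * δ + q * (2 * π) := by
    push_cast; linear_combination (q : ℝ) * h2
  rw [this, Real.cos_add_int_mul_two_pi]

lemma per' (D : Data N δ h X) (m q : ℤ) : h (m + q * N) = h m := by
  induction q using Int.induction_on with
  | zero => simp
  | succ i ih =>
    rw [show m + ((i : ℤ) + 1) * N = (m + i * N) + N by ring, D.per, ih]
  | pred i ih =>
    rw [← D.per (m + (-(i : ℤ) - 1) * N), ← ih]
    congr 1; ring

lemma L_per (D : Data N δ h X) (x : V) (m q : ℤ) :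
    L x ((m + q * N : ℤ) * δ) = L x (m * δ) := by
  unfold L; rw [D.sin_per, D.cos_per]

lemma exists_rep (D : Data N δ h X) (m : ℤ) : ∃ (r : ℕ) (q : ℤ), r < N ∧ m = r + q * N := by
  have hN : (0 : ℤ) < N := by have := D.hN; omega
  refine ⟨(m % N).toNat, m / N, ?_, ?_⟩
  · have h1 := Int.emod_lt_of_pos m hN
    have h2 := Int.emod_nonneg m hN.ne'
    omega
  · have h2 := Int.emod_nonneg m hN.ne'
    rw [Int.toNat_of_nonneg h2]
    have := Int.emod_add_mul_ediv m N
    linarith

lemma dichotomy (D : Data N δ h X) (m : ℤ) :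
    Real.sin (m * δ) ≤ 0 ∨ 0 ≤ Real.sin (((m - 1 : ℤ) : ℝ) * δ) := by
  obtain ⟨r, q, hr, rfl⟩ := D.exists_rep m
  have hδ := D.δpos
  have e1 : ((r : ℤ) + q * N - 1 : ℤ) = ((r : ℤ) - 1) + q * N := by ring
  rw [e1, D.sin_per, D.sin_per]
  rcases Nat.eq_zero_or_pos r with h0 | h0
  · left; simp [h0]
  · have hrR : (1 : ℝ) ≤ r := by exact_mod_cast h0
    have hrN : (r : ℝ) + 1 ≤ N := by exact_mod_cast hr
    have hle : (r : ℝ) * δ ≤ 2 * π := by rw [← D.hδ]; nlinarith
    push_cast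
    by_cases hc : ((r : ℝ) - 1) * δ ≤ π
    · right
      apply Real.sin_nonneg_of_nonneg_of_le_pi _ hc
      nlinarith
    · left
      push Not at hc
      have : Real.sin ((r : ℝ) * δ) = - Real.sin ((r : ℝ) * δ - π) := by
        rw [Real.sin_sub_pi]; ring
      rw [this, neg_nonpos]
      apply Real.sin_nonneg_of_nonneg_of_le_pi
      · nlinarith
      · linarith

/-- the right end parameter of the edge -/
noncomputable def bb (δ : ℝ) (h : ℤ → ℝ) (k : ℤ) : ℝ := (h (k + 1) - h k * Real.cos δ) / Real.sin δ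
/-- the left end parameter of the edge -/
noncomputable def aa (δ : ℝ) (h : ℤ → ℝ) (k : ℤ) : ℝ := (h k * Real.cos δ - h (k - 1)) / Real.sin δ

lemma L_at (_D : Data N δ h X) (x : V) (k j : ℤ) (hx : L x (k * δ) = h k) :
    L x (j * δ) = h k * Real.cos (((j - k : ℤ) : ℝ) * δ)
      + L x (k * δ + π / 2) * Real.sin (((j - k : ℤ) : ℝ) * δ) := by
  conv_lhs => rw [eq_linePt x (k * δ)]
  rw [L_linePt, hx]
  push_cast
  rw [show (j : ℝ) * δ - k * δ = (j - k) * δ by ring]

lemma s_le_b (D : Data N δ h X) {x : V} {k : ℤ} (hx : L x (k * δ) = h k)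
    (h1 : L x (((k + 1 : ℤ) : ℝ) * δ) ≤ h (k + 1)) : L x (k * δ + π / 2) ≤ bb δ h k := by
  rw [D.L_at x k (k + 1) hx] at h1
  rw [show (k + 1 - k : ℤ) = 1 by ring] at h1
  simp only [Int.cast_one, one_mul] at h1
  unfold bb
  rw [le_div_iff₀ D.sinpos]
  linarith

lemma a_le_s (D : Data N δ h X) {x : V} {k : ℤ} (hx : L x (k * δ) = h k)
    (h1 : L x (((k - 1 : ℤ) : ℝ) * δ) ≤ h (k - 1)) : aa δ h k ≤ L x (k * δ + π / 2) := by
  rw [D.L_at x k (k - 1) hx] at h1
  rw [show (k - 1 - k : ℤ) = -1 by ring] at h1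
  simp only [Int.cast_neg, Int.cast_one, neg_mul, one_mul, Real.cos_neg, Real.sin_neg] at h1
  unfold aa
  rw [div_le_iff₀ D.sinpos]
  linarith

lemma vertex_id (D : Data N δ h X) (k m : ℤ) :
    h k * Real.cos (m * δ) + bb δ h k * Real.sin (m * δ)
      = h (k + 1) * Real.cos (((m - 1 : ℤ) : ℝ) * δ)
        + aa δ h (k + 1) * Real.sin (((m - 1 : ℤ) : ℝ) * δ) := by
  have hs := D.sinpos.ne'
  unfold bb aa
  have e1 : ((m - 1 : ℤ) : ℝ) * δ = m * δ - δ := by push_cast; ring
  rw [e1, Real.cos_sub, Real.sin_sub, show (k + 1 - 1 : ℤ) = k by ring]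
  field_simp
  have h1 := Real.sin_sq_add_cos_sq δ
  linear_combination (- h (k + 1) * Real.sin (m * δ)) * h1

lemma V1 (D : Data N δ h X) (k m : ℤ) :
    h k * Real.cos (m * δ) + bb δ h k * Real.sin (m * δ) ≤ h (k + m) := by
  rcases D.dichotomy m with hs | hs
  · have h1 := D.s_le_b (D.eqX k) (D.leX k (k + 1))
    have h2 := D.leX k (k + m)
    rw [D.L_at (X k) k (k + m) (D.eqX k), show (k + m - k : ℤ) = m by ring] at h2
    nlinarith
  · rw [D.vertex_id]
    have h1 := D.a_le_s (D.eqX (k + 1)) (D.leX (k + 1) (k + 1 - 1))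
    have h2 := D.leX (k + 1) (k + m)
    rw [D.L_at (X (k + 1)) (k + 1) (k + m) (D.eqX (k + 1)),
      show (k + m - (k + 1) : ℤ) = m - 1 by ring] at h2
    nlinarith

lemma V2 (D : Data N δ h X) (k m : ℤ) :
    h k * Real.cos (m * δ) + aa δ h k * Real.sin (m * δ) ≤ h (k + m) := by
  have h1 := D.V1 (k - 1) (m + 1)
  rw [D.vertex_id] at h1
  rw [show (m + 1 - 1 : ℤ) = m by ring, show (k - 1 + 1 : ℤ) = k by ring,
    show (k - 1 + (m + 1) : ℤ) = k + m by ring] at h1
  exact h1

lemma aa_le_bb (D : Data N δ h X) (k : ℤ) : aa δ h k ≤ bb δ h k :=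
  (D.a_le_s (D.eqX k) (D.leX k (k - 1))).trans (D.s_le_b (D.eqX k) (D.leX k (k + 1)))

lemma edge_eq (D : Data N δ h X) (k : ℤ) :
    Edge δ h k = (linePt (k * δ) (h k)) '' Icc (aa δ h k) (bb δ h k) := by
  ext x
  constructor
  · rintro ⟨hP, hx⟩
    refine ⟨L x (k * δ + π / 2), ⟨D.a_le_s hx (hP (k - 1)), D.s_le_b hx (hP (k + 1))⟩, ?_⟩
    conv_rhs => rw [eq_linePt x (k * δ), hx]
  · rintro ⟨s, ⟨hs1, hs2⟩, rfl⟩
    refine ⟨fun j => ?_, ?_⟩
    · rw [L_linePt]
      have h1 := D.V1 k (j - k)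
      have h2 := D.V2 k (j - k)
      rw [show (k + (j - k) : ℤ) = j by ring] at h1 h2
      push_cast at h1 h2
      rw [show (j : ℝ) * δ - k * δ = (j - k) * δ by ring]
      rcases le_total 0 (Real.sin (((j : ℝ) - k) * δ)) with hs | hs
      · nlinarith
      · nlinarith
    · rw [L_linePt]; simp

lemma measure_edge (D : Data N δ h X) (k : ℤ) :
    μH[1] (Edge δ h k) = ENNReal.ofReal (bb δ h k - aa δ h k) := by
  rw [D.edge_eq, (isometry_linePt _ _).hausdorffMeasure_image (Or.inl zero_le_one),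
    hausdorffMeasure_real, Real.volume_Icc]

lemma isClosed_poly (δ : ℝ) (h : ℤ → ℝ) : IsClosed (Poly δ h) := by
  have : Poly δ h = ⋂ k : ℤ, {x | L x (k * δ) ≤ h k} := by
    ext x; simp [Poly]
  rw [this]
  exact isClosed_iInter fun k => isClosed_le (continuous_L_left _) continuous_const

lemma isClosed_edge (δ : ℝ) (h : ℤ → ℝ) (k : ℤ) : IsClosed (Edge δ h k) :=
  (isClosed_poly δ h).inter (isClosed_eq (continuous_L_left _) continuous_const)

lemma mem_poly_iff (D : Data N δ h X) (x : V) :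
    x ∈ Poly δ h ↔ ∀ k ∈ Finset.range N, L x (((k : ℕ) : ℤ) * δ) ≤ h ((k : ℕ) : ℤ) := by
  constructor
  · intro hx k _; exact hx k
  · intro hx k
    obtain ⟨r, q, hr, rfl⟩ := D.exists_rep k
    rw [D.L_per, D.per']
    exact hx r (Finset.mem_range.mpr hr)

lemma frontier_poly (D : Data N δ h X) :
    frontier (Poly δ h) = ⋃ k ∈ Finset.range N, Edge δ h ((k : ℕ) : ℤ) := by
  ext x
  simp only [mem_iUnion]
  rw [(isClosed_poly δ h).frontier_eq]
  constructor
  · rintro ⟨hx, hint⟩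
    by_contra hcon
    push Not at hcon
    apply hint
    rw [mem_interior]
    refine ⟨⋂ k ∈ Finset.range N, {y | L y (((k : ℕ) : ℤ) * δ) < h ((k : ℕ) : ℤ)}, ?_, ?_, ?_⟩
    · intro y hy
      rw [D.mem_poly_iff]
      intro k hk
      simp only [mem_iInter] at hy
      exact (hy k hk).le
    · apply isOpen_biInter_finset
      intro k _
      exact isOpen_lt (continuous_L_left _) continuous_const
    · simp only [mem_iInter]
      intro k hk
      refine lt_of_le_of_ne (hx k) (fun h => hcon k hk ⟨hx, h⟩)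
  · rintro ⟨k, hk, hx, hxk⟩
    refine ⟨hx, fun hint => ?_⟩
    have hcont : Continuous (fun t : ℝ => x + t • nn (k * δ)) := by fun_prop
    have hev : ∀ᶠ t in 𝓝 (0 : ℝ), x + t • nn (k * δ) ∈ interior (Poly δ h) := by
      apply hcont.continuousAt.eventually
      simpa using isOpen_interior.mem_nhds hint
    obtain ⟨ε, hε, hball⟩ := Metric.eventually_nhds_iff.mp hev
    have h1 := interior_subset (hball (y := ε / 2) (by
      rw [Real.dist_eq, sub_zero, abs_of_pos (by linarith)]; linarith)) k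
    rw [L_add, L_smul] at h1
    simp only [Int.cast_natCast] at h1 hxk
    rw [hxk, L_nn_self] at h1
    linarith

lemma edge_inter (D : Data N δ h X) {j k : ℕ} (_hj : j < N) (hk : k < N) (hjk : j < k) :
    (Edge δ h j ∩ Edge δ h k).Subsingleton := by
  rintro x ⟨⟨_, hxj⟩, ⟨_, hxk⟩⟩ y ⟨⟨_, hyj⟩, ⟨_, hyk⟩⟩
  have hδ := D.δpos
  by_cases hs : Real.sin ((k : ℤ) * δ - (j : ℤ) * δ) = 0
  · exfalso
    have hjkR : (j : ℝ) + 1 ≤ k := by exact_mod_cast hjk
    have hkR : (k : ℝ) + 1 ≤ N := by exact_mod_cast hk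
    have hj0 : (0 : ℝ) ≤ j := Nat.cast_nonneg j
    push_cast at hs
    set t := (k : ℝ) * δ - j * δ with ht
    have ht0 : 0 < t := by rw [ht]; nlinarith
    have ht2 : t < 2 * π := by rw [ht, ← D.hδ]; nlinarith
    have htpi : t = π := by
      rcases lt_trichotomy t π with h | h | h
      · exact absurd hs (Real.sin_pos_of_pos_of_lt_pi ht0 h).ne'
      · exact h
      · have h3 : 0 < Real.sin (t - π) := Real.sin_pos_of_pos_of_lt_pi (by linarith) (by linarith)
        rw [Real.sin_sub_pi, hs] at h3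
        simp at h3
    have h5 : (k : ℝ) * δ = j * δ + π := by linarith
    simp only [Int.cast_natCast] at hxj hxk
    rw [h5, L_add_pi, hxj] at hxk
    have := D.pos j
    have := D.pos k
    linarith
  · exact eq_of_L hs (hxj.trans hyj.symm) (hxk.trans hyk.symm)

lemma sum_shift (D : Data N δ h X) :
    ∑ k ∈ Finset.range N, h ((k : ℤ) + 1) = ∑ k ∈ Finset.range N, h (k : ℤ) := by
  have h1 := Finset.sum_range_succ' (fun k : ℕ => h (k : ℤ)) N
  have h2 := Finset.sum_range_succ (fun k : ℕ => h (k : ℤ)) N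
  have h3 : h (N : ℤ) = h 0 := by have := D.per 0; simpa using this
  push_cast at h1 h2
  rw [h3] at h2
  linarith

lemma sum_shift' (D : Data N δ h X) :
    ∑ k ∈ Finset.range N, h ((k : ℤ) - 1) = ∑ k ∈ Finset.range N, h (k : ℤ) := by
  have h1 := Finset.sum_range_succ' (fun k : ℕ => h ((k : ℤ) - 1)) N
  have h2 := Finset.sum_range_succ (fun k : ℕ => h ((k : ℤ) - 1)) N
  have h3 : h ((N : ℤ) - 1) = h (0 - 1) := by
    have := D.per (-1)
    rw [show (-1 + (N : ℤ)) = (N : ℤ) - 1 by ring] at this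
    simpa using this
  push_cast at h1 h2
  rw [h3] at h2
  simp only [add_sub_cancel_right] at h1
  rw [show (0 - 1 : ℤ) = -1 by ring] at h2
  linarith

lemma tan_half (D : Data N δ h X) : 2 * (1 - Real.cos δ) / Real.sin δ = 2 * Real.tan (δ / 2) := by
  have hδ := D.δpos
  have hδ' := D.δlt'
  have hc : 0 < Real.cos (δ / 2) := Real.cos_pos_of_mem_Ioo ⟨by linarith, by linarith⟩
  have hs : 0 < Real.sin (δ / 2) := Real.sin_pos_of_pos_of_lt_pi (by linarith) (by linarith)
  have e1 : Real.sin δ = 2 * Real.sin (δ / 2) * Real.cos (δ / 2) := by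
    rw [← Real.sin_two_mul]; congr 1; ring
  have e2 : Real.cos δ = 1 - 2 * Real.sin (δ / 2) ^ 2 := by
    have h1 := Real.cos_two_mul (δ / 2)
    have h2 := Real.sin_sq_add_cos_sq (δ / 2)
    rw [show 2 * (δ / 2) = δ by ring] at h1
    rw [h1]; linarith
  rw [e1, e2, Real.tan_eq_sin_div_cos]
  field_simp
  ring

/-- exact perimeter of the polygon -/
theorem perimeter (D : Data N δ h X) :
    μH[1] (frontier (Poly δ h))
      = ENNReal.ofReal (2 * Real.tan (δ / 2) * ∑ k ∈ Finset.range N, h (k : ℤ)) := by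
  have : NullSingletonClass (μH[1] : Measure V) := nullSingletonClass_hausdorff V one_pos
  rw [D.frontier_poly, measure_biUnion_finset₀]
  · have h1 : ∀ k ∈ Finset.range N, μH[1] (Edge δ h (k : ℤ))
        = ENNReal.ofReal (bb δ h k - aa δ h k) := fun k _ => D.measure_edge k
    rw [Finset.sum_congr rfl h1, ← ENNReal.ofReal_sum_of_nonneg]
    · congr 1
      have h2 : ∀ k ∈ Finset.range N, bb δ h (k : ℤ) - aa δ h (k : ℤ)
          = (h ((k : ℤ) + 1) + h ((k : ℤ) - 1) - 2 * Real.cos δ * h (k : ℤ)) / Real.sin δ := by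
        intro k _
        unfold bb aa
        have := D.sinpos.ne'
        field_simp
        ring
      rw [Finset.sum_congr rfl h2, ← Finset.sum_div, Finset.sum_sub_distrib,
        Finset.sum_add_distrib, D.sum_shift, D.sum_shift', ← Finset.mul_sum, ← D.tan_half]
      have := D.sinpos.ne'
      field_simp
      ring
    · intro k _
      have := D.aa_le_bb k
      linarith
  · intro j hj k hk hjk
    have hj' := Finset.mem_range.mp (Finset.mem_coe.mp hj)
    have hk' := Finset.mem_range.mp (Finset.mem_coe.mp hk)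
    rcases lt_or_gt_of_ne hjk with hlt | hlt
    · exact (D.edge_inter hj' hk' hlt).measure_zero _
    · have := (D.edge_inter hk' hj' hlt).measure_zero (μH[1] : Measure V)
      rw [inter_comm] at this
      exact this
  · intro k _
    exact (isClosed_edge δ h k).measurableSet.nullMeasurableSet

end Data

end Pool.Agent.Helper264.Str
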