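import Pool.Agent.Helper264.StrCauchy

set_option autoImplicit false
open MeasureTheory MeasureTheory.Measure Set Real Filter
open scoped ENNReal NNReal Topology

namespace Pool.Agent.Helper264.Str

/-- support function of a body around the origin, abstractly -/
structure SF (u : ℝ → ℝ) : Prop where
  cont : Continuous u
  per : ∀ θ, u (θ + 2 * π) = u θ
  pos : ∀ θ, 0 < u θ
  sub : ∀ φ β τ : ℝ, 0 ≤ β → β ≤ τ → τ ≤ π →
    u (φ + β) * Real.sin τ ≤ u φ * Real.sin (τ - β) + u (φ + τ) * Real.sin β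

lemma L_sub_identity (x : V) (φ β τ : ℝ) :
    L x (φ + β) * Real.sin τ = L x φ * Real.sin (τ - β) + L x (φ + τ) * Real.sin β := by
  unfold L
  rw [Real.sin_sub, Real.cos_add, Real.cos_add, Real.sin_add, Real.sin_add]
  ring

lemma Body.sf {C : Set V} {h : ℝ → ℝ} {r D : ℝ} (B : Body C h r D) : SF h where
  cont := B.supp.continuous B.cpt
  per := B.supp.periodic
  pos := fun θ => lt_of_lt_of_le B.rpos (B.supp.r_le B.rpos.le B.ball θ)
  sub := by
    intro φ β τ hβ hβτ hτ
    obtain ⟨x, hx, hxθ⟩ := (B.supp (φ + β)).1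
    rw [← hxθ, L_sub_identity]
    have h1 : 0 ≤ Real.sin (τ - β) := Real.sin_nonneg_of_nonneg_of_le_pi (by linarith) (by linarith)
    have h2 : 0 ≤ Real.sin β := Real.sin_nonneg_of_nonneg_of_le_pi (by linarith) (by linarith)
    have h3 := (B.supp φ).2 x hx
    have h4 := (B.supp (φ + τ)).2 x hx
    nlinarith

namespace SF
variable {u : ℝ → ℝ}

lemma refl (S : SF u) : SF (fun θ => u (-θ)) where
  cont := S.cont.comp continuous_neg
  per := by
    intro θ
    have := S.per (-(θ + 2 * π))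
    rw [← this]; congr 1; ring
  pos := fun θ => S.pos _
  sub := by
    intro φ β τ hβ hβτ hτ
    have h1 := S.sub (-φ - τ) (τ - β) τ (by linarith) (by linarith) hτ
    rw [show -φ - τ + (τ - β) = -(φ + β) by ring, show τ - (τ - β) = β by ring,
      show -φ - τ + τ = -φ by ring, show -φ - τ = -(φ + τ) by ring] at h1
    linarith

lemma exists_beta (S : SF u) {R φ : ℝ} (hR : u φ < R) :
    ∃ β, 0 < β ∧ β < π / 2 ∧ (∀ τ, 0 ≤ τ → τ < β → u (φ + τ) < R * Real.cos τ) ∧
      (∀ τ, β < τ → τ ≤ π → R * Real.cos τ < u (φ + τ)) := by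
  have hpi := Real.pi_pos
  have hR0 : 0 < R := (S.pos φ).trans hR
  set T : Set ℝ := {τ | τ ∈ Icc 0 (π / 2) ∧ R * Real.cos τ ≤ u (φ + τ)} with hT
  have hcu : Continuous (fun τ => u (φ + τ)) := S.cont.comp (by fun_prop)
  have hTcl : IsClosed T :=
    isClosed_Icc.inter (isClosed_le (by fun_prop) hcu)
  have hTc : IsCompact T := isCompact_Icc.of_isClosed_subset hTcl (fun x hx => hx.1)
  have hTne : T.Nonempty := by
    refine ⟨π / 2, ⟨by linarith, le_refl _⟩, ?_⟩
    rw [Real.cos_pi_div_two, mul_zero]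
    exact (S.pos _).le
  obtain ⟨β, hβT, hmin⟩ := hTc.exists_isMinOn hTne continuousOn_id
  have hmin' : ∀ τ ∈ T, β ≤ τ := fun τ hτ => hmin hτ
  have hβ0 : 0 < β := by
    rcases hβT.1.1.eq_or_lt with h | h
    · exfalso
      have := hβT.2
      rw [← h] at this
      simp at this
      linarith
    · exact h
  have hβ2 : β < π / 2 := by
    rcases hβT.1.2.eq_or_lt with h | h
    · exfalso
      have hlt : R * Real.cos (π / 2) < u (φ + π / 2) := by
        rw [Real.cos_pi_div_two, mul_zero]; exact S.pos _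
      have hev : ∀ᶠ τ in 𝓝 (π / 2), R * Real.cos τ < u (φ + τ) := by
        have hc1 : ContinuousAt (fun τ => R * Real.cos τ) (π / 2) := by fun_prop
        exact hc1.eventually_lt hcu.continuousAt hlt
      obtain ⟨ε, hε, hball⟩ := Metric.eventually_nhds_iff.mp hev
      set s := π / 2 - min (ε / 2) (π / 4) with hs
      have hm1 : 0 < min (ε / 2) (π / 4) := lt_min (by linarith) (by linarith)
      have hm2 : min (ε / 2) (π / 4) ≤ ε / 2 := min_le_left _ _
      have hm3 : min (ε / 2) (π / 4) ≤ π / 4 := min_le_right _ _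
      have h1 := hball (y := s) (by
        rw [Real.dist_eq, hs, show π / 2 - min (ε / 2) (π / 4) - π / 2 = -min (ε / 2) (π / 4) by ring,
          abs_neg, abs_of_pos hm1]
        linarith)
      have h2 := hmin' s ⟨⟨by linarith, by linarith⟩, h1.le⟩
      linarith
    · exact h
  have hlow : ∀ τ, 0 ≤ τ → τ < β → u (φ + τ) < R * Real.cos τ := by
    intro τ h0 hτ
    by_contra hc
    push Not at hc
    have := hmin' τ ⟨⟨h0, by linarith⟩, hc⟩
    linarith
  refine ⟨β, hβ0, hβ2, hlow, ?_⟩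
  intro τ hτ hτpi
  by_cases hτ2 : τ ≤ π / 2
  · by_contra hc
    push Not at hc
    have h1 := S.sub φ β τ hβ0.le hτ.le hτpi
    have hs1 : 0 < Real.sin (τ - β) := Real.sin_pos_of_pos_of_lt_pi (by linarith) (by linarith)
    have hs2 : 0 < Real.sin β := Real.sin_pos_of_pos_of_lt_pi hβ0 (by linarith)
    have hs3 : 0 < Real.sin τ := Real.sin_pos_of_pos_of_lt_pi (by linarith) (by linarith)
    have h2 : u φ * Real.sin (τ - β) < R * Real.sin (τ - β) := mul_lt_mul_of_pos_right hR hs1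
    have h3 : u (φ + τ) * Real.sin β ≤ R * Real.cos τ * Real.sin β :=
      mul_le_mul_of_nonneg_right hc hs2.le
    have h4 : R * Real.sin (τ - β) + R * Real.cos τ * Real.sin β = R * Real.cos β * Real.sin τ := by
      rw [Real.sin_sub]; ring
    have h5 : u (φ + β) * Real.sin τ < R * Real.cos β * Real.sin τ := by linarith
    have h6 := lt_of_mul_lt_mul_right h5 hs3.le
    linarith [hβT.2]
  · push Not at hτ2
    have : Real.cos τ ≤ 0 := Real.cos_nonpos_of_pi_div_two_le_of_le hτ2.le (by linarith)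
    have h2 := S.pos (φ + τ)
    nlinarith

end SF

/-- right half-angle -/
noncomputable def bp (u : ℝ → ℝ) (R φ : ℝ) : ℝ :=
  ∫ τ in (0 : ℝ)..(π / 2), (if u (φ + τ) < R * Real.cos τ then (1 : ℝ) else 0)

/-- left half-angle -/
noncomputable def bm (u : ℝ → ℝ) (R φ : ℝ) : ℝ :=
  ∫ τ in (0 : ℝ)..(π / 2), (if u (φ - τ) < R * Real.cos τ then (1 : ℝ) else 0)

lemma ite_integral {f : ℝ → ℝ} {P : ℝ → Prop} [DecidablePred P] {a b c : ℝ} (hab : a ≤ b) (hbc : b ≤ c)
    (h1 : ∀ τ, a < τ → τ < b → P τ) (h2 : ∀ τ, b < τ → τ ≤ c → ¬ P τ) (hf : Continuous f) :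
    ∫ τ in a..c, (if P τ then f τ else 0) = ∫ τ in a..b, f τ := by
  have e1 : ∀ᵐ τ : ℝ, τ ∈ Set.uIoc a b → (if P τ then f τ else 0) = f τ := by
    have : ∀ᵐ τ : ℝ, τ ≠ b := by
      rw [ae_iff]; simp
    filter_upwards [this] with τ hτ hmem
    rw [Set.uIoc_of_le hab] at hmem
    rw [if_pos (h1 τ hmem.1 (lt_of_le_of_ne hmem.2 hτ))]
  have e2 : ∀ τ : ℝ, τ ∈ Set.uIoc b c → (if P τ then f τ else 0) = 0 := by
    intro τ hmem
    rw [Set.uIoc_of_le hbc] at hmem
    rw [if_neg (h2 τ hmem.1 hmem.2)]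
  have i1 : IntervalIntegrable (fun τ => if P τ then f τ else 0) volume a b := by
    have := hf.intervalIntegrable (μ := volume) a b
    refine this.congr_ae ?_
    rw [EventuallyEq, ae_restrict_iff' measurableSet_uIoc]
    filter_upwards [e1] with τ hτ hm
    exact (hτ hm).symm
  have i2 : IntervalIntegrable (fun τ => if P τ then f τ else 0) volume b c := by
    have : IntervalIntegrable (fun _ : ℝ => (0 : ℝ)) volume b c := by simp
    refine this.congr ?_
    intro τ hτ
    exact (e2 τ hτ).symm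
  rw [← intervalIntegral.integral_add_adjacent_intervals i1 i2,
    intervalIntegral.integral_congr_ae e1]
  have : ∫ τ in b..c, (if P τ then f τ else 0) = ∫ τ in b..c, (0 : ℝ) :=
    intervalIntegral.integral_congr_ae (Eventually.of_forall fun τ hτ => e2 τ hτ)
  rw [this]; simp

lemma bm_eq_bp (u : ℝ → ℝ) (R φ : ℝ) : bm u R φ = bp (fun θ => u (-θ)) R (-φ) := by
  unfold bm bp
  congr 1
  funext τ
  show _ = if u (-(-φ + τ)) < R * Real.cos τ then (1 : ℝ) else 0
  rw [show -(-φ + τ) = φ - τ by ring]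

namespace SF
variable {u : ℝ → ℝ}

lemma bp_spec (S : SF u) {R φ : ℝ} (hR : u φ < R) :
    0 < bp u R φ ∧ bp u R φ < π / 2 ∧
      (∀ τ, 0 ≤ τ → τ < bp u R φ → u (φ + τ) < R * Real.cos τ) ∧
      (∀ τ, bp u R φ < τ → τ ≤ π → R * Real.cos τ < u (φ + τ)) := by
  have hpi := Real.pi_pos
  obtain ⟨β, h0, h1, h2, h3⟩ := S.exists_beta hR
  have : bp u R φ = β := by
    unfold bp
    rw [ite_integral (P := fun τ => u (φ + τ) < R * Real.cos τ) (f := fun _ => (1 : ℝ))
      h0.le h1.le (fun τ ha hb => h2 τ ha.le hb)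
      (fun τ ha hb => not_lt.mpr (h3 τ ha (by linarith)).le) continuous_const]
    simp
  rw [this]
  exact ⟨h0, h1, h2, h3⟩

lemma bm_spec (S : SF u) {R φ : ℝ} (hR : u φ < R) :
    0 < bm u R φ ∧ bm u R φ < π / 2 ∧
      (∀ τ, 0 ≤ τ → τ < bm u R φ → u (φ - τ) < R * Real.cos τ) ∧
      (∀ τ, bm u R φ < τ → τ ≤ π → R * Real.cos τ < u (φ - τ)) := by
  have h := S.refl.bp_spec (R := R) (φ := -φ) (by simpa using hR)
  rw [← bm_eq_bp] at h
  have e : ∀ τ, (fun θ => u (-θ)) (-φ + τ) = u (φ - τ) := by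
    intro τ; show u (-(-φ + τ)) = u (φ - τ); congr 1; ring
  simp only [e] at h
  exact h

end SF

/-- perimeter functional -/
noncomputable def F (u : ℝ → ℝ) (Q : V) : ℝ := ∫ θ in (0 : ℝ)..(2 * π), max (u θ) (L Q θ)

/-- directional slope -/
noncomputable def g (u : ℝ → ℝ) (Q : V) (ψ : ℝ) : ℝ :=
  ∫ θ in (0 : ℝ)..(2 * π), (if u θ < L Q θ then Real.cos (θ - ψ) else 0)

lemma continuous_L_prod : Continuous (fun p : V × ℝ => L p.1 p.2) := by
  unfold L; fun_prop

lemma int_max {u : ℝ → ℝ} (hu : Continuous u) (Q : V) (a b : ℝ) :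
    IntervalIntegrable (fun θ => max (u θ) (L Q θ)) volume a b :=
  (hu.max (continuous_L Q)).intervalIntegrable a b

lemma meas_ite {u : ℝ → ℝ} (hu : Continuous u) (Q : V) (ψ : ℝ) :
    Measurable (fun θ => if u θ < L Q θ then Real.cos (θ - ψ) else 0) := by
  apply Measurable.ite
  · exact (isOpen_lt hu (continuous_L Q)).measurableSet
  · fun_prop
  · fun_prop

lemma int_ite {u : ℝ → ℝ} (hu : Continuous u) (Q : V) (ψ a b : ℝ) :
    IntervalIntegrable (fun θ => if u θ < L Q θ then Real.cos (θ - ψ) else 0) volume a b := by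
  rw [intervalIntegrable_iff]
  apply Measure.integrableOn_of_bounded (M := 1)
  · simp [Set.uIoc]
  · exact (meas_ite hu Q ψ).aestronglyMeasurable
  · apply Eventually.of_forall
    intro θ
    split_ifs
    · rw [Real.norm_eq_abs]; exact Real.abs_cos_le_one _
    · simp

lemma F_subgrad {u : ℝ → ℝ} (hu : Continuous u) (Q : V) (ψ t : ℝ) :
    F u Q + t * g u Q ψ ≤ F u (Q + t • nn ψ) := by
  unfold F g
  rw [← intervalIntegral.integral_const_mul, ← intervalIntegral.integral_add (int_max hu Q _ _)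
    ((int_ite hu Q ψ _ _).const_mul t)]
  apply intervalIntegral.integral_mono_on (by linarith [Real.pi_pos])
    ((int_max hu Q _ _).add ((int_ite hu Q ψ _ _).const_mul t)) (int_max hu _ _ _)
  intro θ _
  rw [L_add, L_smul, L_nn]
  split_ifs with h
  · rw [max_eq_right h.le]
    exact le_max_right _ _
  · push Not at h
    rw [max_eq_left h, mul_zero, add_zero]
    exact le_max_left _ _

lemma per_shift {f : ℝ → ℝ} (hf : ∀ θ, f (θ + 2 * π) = f θ) (φ : ℝ) :
    ∫ θ in (0 : ℝ)..(2 * π), f θ = ∫ τ in (-π)..π, f (φ + τ) := by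
  have h1 : Function.Periodic f (2 * π) := hf
  have h2 := h1.intervalIntegral_add_eq 0 (φ - π)
  rw [zero_add] at h2
  rw [h2, intervalIntegral.integral_comp_add_left (f := f) (a := -π) (b := π) φ]
  congr 1 <;> ring

lemma ae_split {f : ℝ → ℝ} {P : ℝ → Prop} [DecidablePred P] {a b m c : ℝ} (ham : a ≤ -m)
    (hm : 0 ≤ m) (hb : 0 ≤ b) (hbc : b ≤ c)
    (h1 : ∀ τ, 0 ≤ τ → τ < b → P τ) (h2 : ∀ τ, b < τ → τ ≤ c → ¬ P τ)
    (h3 : ∀ τ, 0 ≤ τ → τ < m → P (-τ)) (h4 : ∀ τ, m < τ → τ ≤ -a → ¬ P (-τ))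
    (hf : Continuous f) (hi : ∀ x y, IntervalIntegrable (fun τ => if P τ then f τ else 0) volume x y) :
    ∫ τ in a..c, (if P τ then f τ else 0) = ∫ τ in (-m)..b, f τ := by
  rw [← intervalIntegral.integral_add_adjacent_intervals (hi a 0) (hi 0 c)]
  have e1 : ∫ τ in (0 : ℝ)..c, (if P τ then f τ else 0) = ∫ τ in (0 : ℝ)..b, f τ :=
    ite_integral hb hbc (fun τ ha hb => h1 τ ha.le hb) h2 hf
  have e2 : ∫ τ in a..0, (if P τ then f τ else 0) = ∫ τ in (-m)..0, f τ := by
    have e3 := intervalIntegral.integral_comp_neg (a := 0) (b := -a)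
      (fun τ => if P τ then f τ else 0)
    have e4 := intervalIntegral.integral_comp_neg (a := 0) (b := m) f
    simp only [neg_neg, neg_zero] at e3 e4
    rw [← e3, ← e4]
    exact ite_integral (P := fun τ => P (-τ)) (f := fun τ => f (-τ)) hm (by linarith)
      (fun τ ha hb => h3 τ ha.le hb) h4 (hf.comp continuous_neg)
  rw [e1, e2, intervalIntegral.integral_add_adjacent_intervals (hf.intervalIntegrable _ _)
    (hf.intervalIntegrable _ _)]

namespace SF
variable {u : ℝ → ℝ}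

lemma g_eval (S : SF u) {R φ : ℝ} (hR : u φ < R) (ψ : ℝ) :
    g u (R • nn φ) ψ = 2 * Real.sin ((bp u R φ + bm u R φ) / 2) *
      Real.cos (φ - ψ + (bp u R φ - bm u R φ) / 2) := by
  have hpi := Real.pi_pos
  obtain ⟨p0, p1, p2, p3⟩ := S.bp_spec hR
  obtain ⟨m0, m1, m2, m3⟩ := S.bm_spec hR
  unfold g
  rw [per_shift (f := fun θ => if u θ < L (R • nn φ) θ then Real.cos (θ - ψ) else 0) _ φ]
  · have e : ∀ τ, L (R • nn φ) (φ + τ) = R * Real.cos τ := by
      intro τ; rw [L_smul, L_nn]; congr 2; ring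
    simp only [e]
    rw [ae_split (P := fun τ => u (φ + τ) < R * Real.cos τ) (f := fun τ => Real.cos (φ + τ - ψ))
      (a := -π) (m := bm u R φ) (b := bp u R φ) (c := π) (by linarith) m0.le p0.le (by linarith)
      p2 (fun τ h h' => not_lt.mpr (p3 τ h h').le)
      (fun τ h h' => by
        have := m2 τ h h'
        rw [Real.cos_neg, ← sub_eq_add_neg]; exact this)
      (fun τ h h' => by
        have := m3 τ h (by linarith)
        rw [Real.cos_neg, ← sub_eq_add_neg]; exact not_lt.mpr this.le)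
      (by fun_prop)]
    · have : ∫ τ in (-bm u R φ)..(bp u R φ), Real.cos (φ + τ - ψ)
          = Real.sin (φ + bp u R φ - ψ) - Real.sin (φ - bm u R φ - ψ) := by
        have h1 : ∀ τ, φ + τ - ψ = τ + (φ - ψ) := fun τ => by ring
        simp only [h1]
        rw [intervalIntegral.integral_comp_add_right (fun x => Real.cos x), integral_cos]
        congr 2 <;> ring
      rw [this, Real.sin_sub_sin]
      rw [show (φ + bp u R φ - ψ - (φ - bm u R φ - ψ)) / 2 = (bp u R φ + bm u R φ) / 2 by ring,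
        show (φ + bp u R φ - ψ + (φ - bm u R φ - ψ)) / 2 = φ - ψ + (bp u R φ - bm u R φ) / 2 by ring]
    · intro x y
      have h1 := int_ite S.cont (R • nn φ) ψ (x + φ) (y + φ)
      have h2 := h1.comp_add_right φ
      simp only [add_sub_cancel_right] at h2
      refine h2.congr ?_
      intro τ _
      show (if u (τ + φ) < L (R • nn φ) (τ + φ) then Real.cos (τ + φ - ψ) else 0) = _
      rw [add_comm τ φ, e]
  · intro θ
    rw [S.per, L_add_two_pi, show θ + 2 * π - ψ = (θ - ψ) + 2 * π by ring, Real.cos_add_two_pi]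

lemma tie_null (S : SF u) {R φ : ℝ} (hR : u φ < R) :
    ∀ᵐ θ : ℝ, u θ ≠ L (R • nn φ) θ := by
  obtain ⟨p0, p1, p2, p3⟩ := S.bp_spec hR
  obtain ⟨m0, m1, m2, m3⟩ := S.bm_spec hR
  set A : Set ℝ := range (fun k : ℤ => φ + bp u R φ + k * (2 * π)) with hA
  set B : Set ℝ := range (fun k : ℤ => φ - bm u R φ + k * (2 * π)) with hB
  have hc : (A ∪ B).Countable := (countable_range _).union (countable_range _)
  have h1 : ∀ᵐ θ : ℝ, θ ∉ A ∪ B := hc.ae_notMem volume
  filter_upwards [h1] with θ hθ heq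
  apply hθ
  -- reduce to (-π, π]
  obtain ⟨k, hk⟩ : ∃ k : ℤ, θ - φ - k * (2 * π) ∈ Ioc (-π) (-π + 2 * π) := by
    have := existsUnique_sub_zsmul_mem_Ioc (G := ℝ) (a := 2 * π) (by linarith [Real.pi_pos]) (θ - φ) (-π)
    obtain ⟨k, hk, -⟩ := this
    exact ⟨k, by simpa using hk⟩
  set τ := θ - φ - k * (2 * π) with hτ
  have hθτ : θ = φ + τ + k * (2 * π) := by rw [hτ]; ring
  have hu : u (φ + τ) = R * Real.cos τ := by
    have hper : Function.Periodic u (2 * π) := S.per
    have e1 : u θ = u (φ + τ) := by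
      rw [hθτ]; exact hper.int_mul k (φ + τ)
    rw [← e1, heq, L_smul, L_nn, hθτ, show φ + τ + k * (2 * π) - φ = τ + k * (2 * π) by ring,
      Real.cos_add_int_mul_two_pi]
  rcases le_total 0 τ with h0 | h0
  · left
    refine ⟨k, ?_⟩
    have : τ = bp u R φ := by
      rcases lt_trichotomy τ (bp u R φ) with h | h | h
      · have := p2 τ h0 h; linarith
      · exact h
      · have := p3 τ h (by linarith [hk.2]); linarith
    show φ + bp u R φ + k * (2 * π) = θ
    rw [hθτ, this]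
  · right
    refine ⟨k, ?_⟩
    have : -τ = bm u R φ := by
      rcases lt_trichotomy (-τ) (bm u R φ) with h | h | h
      · have := m2 (-τ) (by linarith) h
        rw [sub_neg_eq_add, Real.cos_neg] at this; linarith
      · exact h
      · have := m3 (-τ) h (by linarith [hk.1])
        rw [sub_neg_eq_add, Real.cos_neg] at this; linarith
    show φ - bm u R φ + k * (2 * π) = θ
    rw [hθτ, ← this]; ring

lemma g_tendsto (S : SF u) {R φ : ℝ} (hR : u φ < R) (ψ : ℝ) :
    Tendsto (fun t : ℝ => g u (R • nn φ + t • nn ψ) ψ) (𝓝 0) (𝓝 (g u (R • nn φ) ψ)) := by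
  unfold g
  apply intervalIntegral.tendsto_integral_filter_of_dominated_convergence (fun _ => (1 : ℝ))
  · exact Eventually.of_forall fun t => (meas_ite S.cont _ ψ).aestronglyMeasurable
  · apply Eventually.of_forall
    intro t
    apply Eventually.of_forall
    intro θ _
    split_ifs
    · rw [Real.norm_eq_abs]; exact Real.abs_cos_le_one _
    · simp
  · simp
  · filter_upwards [S.tie_null hR] with θ hθ _
    have hc : Continuous (fun t : ℝ => L (R • nn φ + t • nn ψ) θ) :=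
      (continuous_L_left θ).comp (by fun_prop)
    have hc0 : Tendsto (fun t : ℝ => L (R • nn φ + t • nn ψ) θ) (𝓝 0) (𝓝 (L (R • nn φ) θ)) := by
      have h0 := hc.tendsto 0
      simp only [zero_smul, add_zero] at h0
      exact h0
    apply Tendsto.congr' _ tendsto_const_nhds
    rcases lt_or_gt_of_ne hθ with h | h
    · have hev : ∀ᶠ t in 𝓝 (0 : ℝ), u θ < L (R • nn φ + t • nn ψ) θ :=
        hc0.eventually (lt_mem_nhds h)
      filter_upwards [hev] with t ht
      rw [if_pos h, if_pos ht]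
    · have hev : ∀ᶠ t in 𝓝 (0 : ℝ), L (R • nn φ + t • nn ψ) θ < u θ :=
        hc0.eventually (gt_mem_nhds h)
      filter_upwards [hev] with t ht
      rw [if_neg (not_lt.mpr h.le), if_neg (not_lt.mpr ht.le)]

lemma descent (S : SF u) {R φ : ℝ} (hR : u φ < R) {ψ : ℝ} (hg : g u (R • nn φ) ψ < 0) :
    ∃ t : ℝ, 0 < t ∧ F u (R • nn φ + t • nn ψ) < F u (R • nn φ) := by
  have hev : ∀ᶠ t in 𝓝 (0 : ℝ), g u (R • nn φ + t • nn ψ) ψ < 0 :=
    (S.g_tendsto hR ψ).eventually (gt_mem_nhds hg)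
  obtain ⟨ε, hε, hball⟩ := Metric.eventually_nhds_iff.mp hev
  refine ⟨ε / 2, by linarith, ?_⟩
  have h1 := hball (y := ε / 2) (by
    rw [Real.dist_eq, sub_zero, abs_of_pos (by linarith)]; linarith)
  have h2 := F_subgrad S.cont (R • nn φ + (ε / 2) • nn ψ) ψ (-(ε / 2))
  rw [show R • nn φ + (ε / 2) • nn ψ + (-(ε / 2)) • nn ψ = R • nn φ by
    rw [neg_smul]; abel] at h2
  nlinarith

end SF

/-- the bisector relation -/
theorem bisector {u₁ u₂ : ℝ → ℝ} (S₁ : SF u₁) (S₂ : SF u₂) {R φ : ℝ} (h₁ : u₁ φ < R)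
    (h₂ : u₂ φ < R) (hlev : ∀ Q, F u₁ Q < F u₁ (R • nn φ) → F u₂ Q < F u₂ (R • nn φ)) :
    bp u₁ R φ - bm u₁ R φ = bp u₂ R φ - bm u₂ R φ := by
  have hpi := Real.pi_pos
  obtain ⟨p0, p1, -, -⟩ := S₁.bp_spec h₁
  obtain ⟨m0, m1, -, -⟩ := S₁.bm_spec h₁
  obtain ⟨p0', p1', -, -⟩ := S₂.bp_spec h₂
  obtain ⟨m0', m1', -, -⟩ := S₂.bm_spec h₂
  have hg : ∀ ψ, g u₁ (R • nn φ) ψ < 0 → g u₂ (R • nn φ) ψ < 0 := by
    intro ψ hψ
    obtain ⟨t, ht, hF⟩ := S₁.descent h₁ hψ
    have h3 := hlev _ hF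
    have h4 := F_subgrad S₂.cont (R • nn φ) ψ t
    have h5 : t * g u₂ (R • nn φ) ψ < 0 := by linarith
    by_contra hc
    push Not at hc
    have := mul_nonneg ht.le hc
    linarith
  set d₁ := (bp u₁ R φ - bm u₁ R φ) / 2 with hd₁
  set d₂ := (bp u₂ R φ - bm u₂ R φ) / 2 with hd₂
  have hcos : ∀ α : ℝ, Real.cos (α + d₁) < 0 → Real.cos (α + d₂) < 0 := by
    intro α hα
    have s1 : 0 < Real.sin ((bp u₁ R φ + bm u₁ R φ) / 2) :=
      Real.sin_pos_of_pos_of_lt_pi (by linarith) (by linarith)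
    have s2 : 0 < Real.sin ((bp u₂ R φ + bm u₂ R φ) / 2) :=
      Real.sin_pos_of_pos_of_lt_pi (by linarith) (by linarith)
    have h3 := hg (φ - α)
    rw [S₁.g_eval h₁, S₂.g_eval h₂, ← hd₁, ← hd₂, show φ - (φ - α) = α by ring] at h3
    have h4 := h3 (mul_neg_of_pos_of_neg (by linarith) hα)
    by_contra hc
    push Not at hc
    have := mul_nonneg (mul_nonneg (zero_le_two) s2.le) hc
    linarith
  have hd : d₁ = d₂ := by
    rcases lt_trichotomy d₁ d₂ with h | h | h
    · exfalso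
      have h5 := hcos (-(π / 2 + (d₂ - d₁) / 2) - d₁) (by
        rw [show -(π / 2 + (d₂ - d₁) / 2) - d₁ + d₁ = -((d₂ - d₁) / 2 + π / 2) by ring,
          Real.cos_neg, Real.cos_add_pi_div_two, neg_lt_zero]
        exact Real.sin_pos_of_pos_of_lt_pi (by linarith) (by linarith))
      rw [show -(π / 2 + (d₂ - d₁) / 2) - d₁ + d₂ = (d₂ - d₁) / 2 - π / 2 by ring,
        Real.cos_sub_pi_div_two] at h5
      have : 0 < Real.sin ((d₂ - d₁) / 2) :=
        Real.sin_pos_of_pos_of_lt_pi (by linarith) (by linarith)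
      linarith
    · exact h
    · exfalso
      have h5 := hcos (π / 2 + (d₁ - d₂) / 2 - d₁) (by
        rw [show π / 2 + (d₁ - d₂) / 2 - d₁ + d₁ = (d₁ - d₂) / 2 + π / 2 by ring,
          Real.cos_add_pi_div_two, neg_lt_zero]
        exact Real.sin_pos_of_pos_of_lt_pi (by linarith) (by linarith))
      rw [show π / 2 + (d₁ - d₂) / 2 - d₁ + d₂ = -((d₁ - d₂) / 2 - π / 2) by ring,
        Real.cos_neg, Real.cos_sub_pi_div_two] at h5
      have : 0 < Real.sin ((d₁ - d₂) / 2) :=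
        Real.sin_pos_of_pos_of_lt_pi (by linarith) (by linarith)
      linarith
  linarith

end Pool.Agent.Helper264.Str
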